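import Mathlib

/-!
# Lie algebras of skew operators which contain all operators of rank two

`U` is a space with a symmetric nondegenerate form `B`, `wd B a b` is the operator
`v ↦ B v b • a - B v a • b`.
-/

set_option autoImplicit false

namespace Pool.Agent.H86.T3

open Module

variable {K : Type*} [Field K] [CharZero K] {U : Type*} [AddCommGroup U] [Module K U]

/-- the operator `a ∧ b` -/
def wd (B : U →ₗ[K] U →ₗ[K] K) (a b : U) : End K U :=
  (B.flip b).smulRight a - (B.flip a).smulRight b

variable (B : U →ₗ[K] U →ₗ[K] K)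

omit [CharZero K] in
theorem wd_apply (a b v : U) : wd B a b v = B v b • a - B v a • b := rfl

omit [CharZero K] in
theorem wd_self (a : U) : wd B a a = 0 := by
  refine LinearMap.ext fun v => ?_
  rw [wd_apply, sub_self, LinearMap.zero_apply]

omit [CharZero K] in
theorem wd_comm (a b : U) : wd B b a = -wd B a b := by
  refine LinearMap.ext fun v => ?_
  rw [LinearMap.neg_apply, wd_apply, wd_apply, neg_sub]

omit [CharZero K] in
theorem wd_add (a b c : U) : wd B a (b + c) = wd B a b + wd B a c := by
  refine LinearMap.ext fun v => ?_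
  rw [LinearMap.add_apply, wd_apply, wd_apply, wd_apply, map_add]
  module

omit [CharZero K] in
theorem wd_smul (a b : U) (r : K) : wd B a (r • b) = r • wd B a b := by
  refine LinearMap.ext fun v => ?_
  rw [LinearMap.smul_apply, wd_apply, wd_apply, map_smul, smul_eq_mul]
  module

omit [CharZero K] in
theorem wd_add_left (a b c : U) : wd B (a + b) c = wd B a c + wd B b c := by
  rw [wd_comm, wd_add, wd_comm B a c, wd_comm B b c]
  abel

omit [CharZero K] in
theorem wd_smul_left (a b : U) (r : K) : wd B (r • a) b = r • wd B a b := by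
  rw [wd_comm, wd_smul, wd_comm B a b, smul_neg, neg_neg]

omit [CharZero K] in
/-- the commutator with a skew operator -/
theorem brk (y : End K U) (hy : ∀ u v, B (y u) v + B u (y v) = 0) (a b : U) :
    y * wd B a b - wd B a b * y = wd B (y a) b + wd B a (y b) := by
  refine LinearMap.ext fun v => ?_
  have h1 := hy v b
  have h2 := hy v a
  simp only [LinearMap.sub_apply, Module.End.mul_apply, LinearMap.add_apply, wd_apply, map_sub,
    map_smul]
  have e1 : B (y v) b = -B v (y b) := eq_neg_of_add_eq_zero_left h1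
  have e2 : B (y v) a = -B v (y a) := eq_neg_of_add_eq_zero_left h2
  rw [e1, e2]
  module

omit [CharZero K] in
/-- the operators `a ∧ b` are skew -/
theorem wd_skew (hs : ∀ u v, B u v = B v u) (a b u v : U) :
    B (wd B a b u) v + B u (wd B a b v) = 0 := by
  simp only [wd_apply, map_sub, map_smul, LinearMap.sub_apply, LinearMap.smul_apply, smul_eq_mul]
  rw [hs a v, hs b v]
  ring

section span

variable [FiniteDimensional K U]

/-- Every skew operator is a combination of operators `a ∧ b`. -/
theorem skew_mem (hs : ∀ u v, B u v = B v u) (hn : ∀ u, (∀ v, B u v = 0) → u = 0)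
    {𝔦 : Submodule K (End K U)} (h : ∀ a b, wd B a b ∈ 𝔦) {Y : End K U}
    (hY : ∀ u v, B (Y u) v + B u (Y v) = 0) : Y ∈ 𝔦 := by
  classical
  let b := finBasis K U
  have hnd : LinearMap.BilinForm.Nondegenerate B := by
    refine ⟨fun u hu => hn u hu, fun u hu => hn u fun v => ?_⟩
    rw [hs]
    exact hu v
  let b' := LinearMap.BilinForm.dualBasis B hnd b
  have hb : ∀ x, x = ∑ i, B x (b i) • b' i := by
    intro x
    have h1 := b'.sum_repr x
    conv_lhs => rw [← h1]
    refine Finset.sum_congr rfl fun i _ => ?_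
    congr 1
    have h2 : B x (b i) = b'.repr x i := by
      conv_lhs => rw [← h1]
      rw [map_sum, LinearMap.sum_apply, Finset.sum_eq_single i]
      · rw [map_smul, LinearMap.smul_apply, LinearMap.BilinForm.apply_dualBasis_left, if_pos rfl,
          smul_eq_mul, mul_one]
      · intro j _ hj
        rw [map_smul, LinearMap.smul_apply, LinearMap.BilinForm.apply_dualBasis_left,
          if_neg (Ne.symm hj), smul_eq_mul, mul_zero]
      · intro h
        exact absurd (Finset.mem_univ _) h
    exact h2.symm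
  have hb2 : ∀ x, x = ∑ i, B x (b' i) • b i := by
    intro x
    rw [← sub_eq_zero]
    refine hn _ fun v => ?_
    rw [map_sub, LinearMap.sub_apply, map_sum, LinearMap.sum_apply, sub_eq_zero]
    have e1 : B x v = ∑ j, B v (b j) * B x (b' j) := by
      conv_lhs => rw [hb v]
      rw [map_sum]
      refine Finset.sum_congr rfl fun j _ => ?_
      rw [map_smul, smul_eq_mul]
    rw [e1]
    refine Finset.sum_congr rfl fun i _ => ?_
    rw [map_smul, LinearMap.smul_apply, smul_eq_mul, hs (b i) v, mul_comm]
  have h5 : (2 : K) • Y = ∑ i, wd B (Y (b i)) (b' i) := by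
    refine LinearMap.ext fun v => ?_
    rw [LinearMap.sum_apply]
    simp only [wd_apply]
    rw [Finset.sum_sub_distrib]
    have h6 : ∑ i, B v (b' i) • Y (b i) = Y v := by
      conv_rhs => rw [hb2 v]
      rw [map_sum]
      refine Finset.sum_congr rfl fun i _ => ?_
      rw [map_smul]
    have h7 : ∑ i, B v (Y (b i)) • b' i = -Y v := by
      rw [eq_neg_iff_add_eq_zero]
      conv_lhs => rw [hb (Y v)]
      rw [← Finset.sum_add_distrib]
      refine Finset.sum_eq_zero fun i _ => ?_
      rw [← add_smul, add_comm, hY, zero_smul]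
    rw [h6, h7, LinearMap.smul_apply, two_smul, sub_neg_eq_add]
  have h6 : Y = (2 : K)⁻¹ • ∑ i, wd B (Y (b i)) (b' i) := by
    rw [← h5, smul_smul, inv_mul_cancel₀ two_ne_zero, one_smul]
  rw [h6]
  exact 𝔦.smul_mem _ (𝔦.sum_mem fun i _ => h _ _)

end span

section full

variable (hs : ∀ u v, B u v = B v u) {𝔥 𝔦 : Submodule K (End K U)}
  (hsk : ∀ y ∈ 𝔥, ∀ u v, B (y u) v + B u (y v) = 0) (hle : 𝔦 ≤ 𝔥)
  (hid : ∀ y ∈ 𝔥, ∀ z ∈ 𝔦, y * z - z * y ∈ 𝔦)
  (hirr : ∀ W : Submodule K U, (∀ y ∈ 𝔥, ∀ w ∈ W, y w ∈ W) → W = ⊥ ∨ W = ⊤)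

include hsk hle hid hirr

omit [CharZero K] in
/-- The case of a reflection. -/
theorem full_of_refl {a : U} (ha : B a a ≠ 0) (h : ∀ y ∈ 𝔥, wd B a (y a) ∈ 𝔦) :
    ∀ p q, wd B p q ∈ 𝔦 := by
  let N : Submodule K U :=
    { carrier := {w | wd B a w ∈ 𝔦}
      zero_mem' := by
        change wd B a 0 ∈ 𝔦
        have h1 : wd B a 0 = 0 := by
          refine LinearMap.ext fun v => ?_
          rw [wd_apply, map_zero, zero_smul, smul_zero, sub_zero, LinearMap.zero_apply]
        rw [h1]
        exact 𝔦.zero_mem
      add_mem' := by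
        intro x y hx hy
        change wd B a (x + y) ∈ 𝔦
        rw [wd_add]
        exact 𝔦.add_mem hx hy
      smul_mem' := by
        intro c x hx
        change wd B a (c • x) ∈ 𝔦
        rw [wd_smul]
        exact 𝔦.smul_mem _ hx }
  have hN : ∀ w, w ∈ N ↔ wd B a w ∈ 𝔦 := fun _ => Iff.rfl
  have h2 : ∀ p ∈ N, ∀ q ∈ N, wd B p q ∈ 𝔦 := by
    intro p hp q hq
    have h3 := hid _ (hle hp) _ hq
    rw [brk B _ (hsk _ (hle hp))] at h3
    have h4 : wd B a p a = B a p • a - B a a • p := wd_apply B a p a
    have h5 : wd B a p q = B q p • a - B q a • p := wd_apply B a p q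
    have h6 : wd B (wd B a p a) q + wd B a (wd B a p q) =
        B a p • wd B a q - B a a • wd B p q - B q a • wd B a p := by
      rw [h4, h5]
      refine LinearMap.ext fun v => ?_
      simp only [LinearMap.add_apply, LinearMap.sub_apply, LinearMap.smul_apply, wd_apply, map_sub,
        map_smul, smul_eq_mul]
      module
    rw [h6] at h3
    have h7 : B a a • wd B p q ∈ 𝔦 := by
      have h8 := 𝔦.sub_mem (𝔦.sub_mem (𝔦.smul_mem (B a p) hq) h3) (𝔦.smul_mem (B q a) hp)
      have h9 : B a p • wd B a q - (B a p • wd B a q - B a a • wd B p q - B q a • wd B a p) -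
          B q a • wd B a p = B a a • wd B p q := by abel
      rwa [h9] at h8
    have h8 := 𝔦.smul_mem (B a a)⁻¹ h7
    rwa [smul_smul, inv_mul_cancel₀ ha, one_smul] at h8
  have h3 : N = ⊤ := by
    refine (hirr N fun y hy w hw => ?_).resolve_left ?_
    · have h4 := hid y hy _ hw
      rw [brk B y (hsk y hy)] at h4
      have h5 := h2 (y a) (h y hy) w hw
      rw [hN]
      have h6 := 𝔦.sub_mem h4 h5
      rwa [add_sub_cancel_left] at h6
    · intro h4
      have h5 : a ∈ N := by
        rw [hN, wd_self]
        exact 𝔦.zero_mem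
      rw [h4, Submodule.mem_bot] at h5
      rw [h5] at ha
      exact ha (by rw [map_zero])
  intro p q
  exact h2 p (by rw [h3]; trivial) q (by rw [h3]; trivial)

end full

end Pool.Agent.H86.T3
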