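import Mathlib
import Pool.Agent.H86.CMLib9.W5h27.UN.NonScalar

/-!
# Type III: preliminaries
-/
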