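import Mathlib
import Pool.Agent.H86.T3.Alg

/-!
# The case of a hyperbolic pair
-/

set_option autoImplicit false

namespace Pool.Agent.H86.T3

open Module

variable {K : Type*} [Field K] [CharZero K] {U : Type*} [AddCommGroup U] [Module K U]
  (B : U →ₗ[K] U →ₗ[K] K)

omit [CharZero K] in
theorem wd_zero (a : U) : wd B a 0 = 0 := by
  refine LinearMap.ext fun v => ?_
  rw [wd_apply, map_zero, zero_smul, smul_zero, sub_zero, LinearMap.zero_apply]

/-- the vectors `w` orthogonal to `e` and `f` with `e ∧ w` in `𝔦` -/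
def Np (𝔦 : Submodule K (End K U)) (e f : U) : Submodule K U where
  carrier := {w | B w e = 0 ∧ B w f = 0 ∧ wd B e w ∈ 𝔦}
  zero_mem' := by
    refine ⟨by rw [map_zero, LinearMap.zero_apply], by rw [map_zero, LinearMap.zero_apply], ?_⟩
    rw [wd_zero]
    exact 𝔦.zero_mem
  add_mem' := by
    rintro x y ⟨h1, h2, h3⟩ ⟨h4, h5, h6⟩
    refine ⟨by rw [map_add, LinearMap.add_apply, h1, h4, add_zero],
      by rw [map_add, LinearMap.add_apply, h2, h5, add_zero], ?_⟩
    rw [wd_add]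
    exact 𝔦.add_mem h3 h6
  smul_mem' := by
    rintro c x ⟨h1, h2, h3⟩
    refine ⟨by rw [map_smul, LinearMap.smul_apply, h1, smul_zero],
      by rw [map_smul, LinearMap.smul_apply, h2, smul_zero], ?_⟩
    rw [wd_smul]
    exact 𝔦.smul_mem _ h3

section full

variable (hs : ∀ u v, B u v = B v u) {𝔥 𝔦 : Submodule K (End K U)}
  (hsk : ∀ y ∈ 𝔥, ∀ u v, B (y u) v + B u (y v) = 0) (hle : 𝔦 ≤ 𝔥)
  (hid : ∀ y ∈ 𝔥, ∀ z ∈ 𝔦, y * z - z * y ∈ 𝔦)
  (hirr : ∀ W : Submodule K U, (∀ y ∈ 𝔥, ∀ w ∈ W, y w ∈ W) → W = ⊥ ∨ W = ⊤)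

include hs hsk hle hid

omit [CharZero K] in
theorem np_stable {e f : U} (hee : B e e = 0) (hff : B f f = 0) (hef : B e f = 1)
    (hP : ∀ x ∈ 𝔥, wd B e (x f - B (x f) e • f) ∈ 𝔦) {y : End K U} (hy : y ∈ 𝔥) {w : U}
    (hw : w ∈ Np B 𝔦 e f) : y w - B (y w) f • e - B (y w) e • f ∈ Np B 𝔦 e f := by
  have hfe : B f e = 1 := by rw [hs, hef]
  obtain ⟨h1, h2, h3⟩ := hw
  refine ⟨?_, ?_, ?_⟩
  · simp only [map_sub, map_smul, LinearMap.sub_apply, LinearMap.smul_apply, smul_eq_mul, hee, hfe]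
    ring
  · simp only [map_sub, map_smul, LinearMap.sub_apply, LinearMap.smul_apply, smul_eq_mul, hff, hef]
    ring
  · have h4 := hid y hy _ h3
    have h5 := hP _ (hle h4)
    rw [brk B y (hsk y hy)] at h5
    have h6 : (wd B (y e) w + wd B e (y w)) f = -B f (y e) • w + B f (y w) • e - y w := by
      rw [LinearMap.add_apply, wd_apply, wd_apply, hs f w, h2, hfe]
      module
    have h7 : B ((wd B (y e) w + wd B e (y w)) f) e = -B (y w) e := by
      rw [h6]
      simp only [map_sub, map_add, map_smul, LinearMap.sub_apply, LinearMap.add_apply,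
        LinearMap.smul_apply, smul_eq_mul, h1, hee]
      ring
    rw [h7, h6] at h5
    have h8 : wd B e (-B f (y e) • w + B f (y w) • e - y w - -B (y w) e • f) =
        -B f (y e) • wd B e w - (wd B e (y w) - B (y w) e • wd B e f) := by
      refine LinearMap.ext fun v => ?_
      simp only [LinearMap.sub_apply, LinearMap.smul_apply, wd_apply, map_sub, map_add,
        map_smul, smul_eq_mul]
      module
    rw [h8] at h5
    have h9 := 𝔦.sub_mem (𝔦.smul_mem (-B f (y e)) h3) h5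
    rw [sub_sub_cancel] at h9
    have h10 : wd B e (y w - B (y w) f • e - B (y w) e • f) =
        wd B e (y w) - B (y w) e • wd B e f := by
      refine LinearMap.ext fun v => ?_
      simp only [LinearMap.sub_apply, LinearMap.smul_apply, wd_apply, map_sub,
        map_smul, smul_eq_mul]
      module
    rw [h10]
    exact h9

omit hle hid in
theorem np_f {e f : U} (hff : B f f = 0) (hef : B e f = 1)
    (hP : ∀ x ∈ 𝔥, wd B e (x f - B (x f) e • f) ∈ 𝔦) {y : End K U} (hy : y ∈ 𝔥) :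
    y f - B (y f) e • f ∈ Np B 𝔦 e f := by
  have hfe : B f e = 1 := by rw [hs, hef]
  have h1 : B (y f) f = 0 := by
    have h2 := hsk y hy f f
    rw [hs f (y f)] at h2
    have h3 : (2 : K) * B (y f) f = 0 := by linear_combination h2
    exact (mul_eq_zero.1 h3).resolve_left two_ne_zero
  refine ⟨?_, ?_, hP y hy⟩
  · rw [map_sub, LinearMap.sub_apply, map_smul, LinearMap.smul_apply, hfe, smul_eq_mul, mul_one,
      sub_self]
  · rw [map_sub, LinearMap.sub_apply, map_smul, LinearMap.smul_apply, hff, smul_eq_mul, mul_zero,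
      sub_zero, h1]

include hirr in
theorem np_aniso {e f : U} (hee : B e e = 0) (hff : B f f = 0) (hef : B e f = 1)
    (hP : ∀ x ∈ 𝔥, wd B e (x f - B (x f) e • f) ∈ 𝔦) :
    ∃ v ∈ Np B 𝔦 e f, ∃ w ∈ Np B 𝔦 e f, B v w ≠ 0 := by
  by_contra hcon
  push Not at hcon
  have h1 : ∀ y ∈ 𝔥, ∀ w ∈ Submodule.span K {f} ⊔ Np B 𝔦 e f,
      y w ∈ Submodule.span K {f} ⊔ Np B 𝔦 e f := by
    intro y hy w hw
    obtain ⟨x, hx, n, hn, rfl⟩ := Submodule.mem_sup.1 hw
    obtain ⟨c, rfl⟩ := Submodule.mem_span_singleton.1 hx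
    have h2 := np_f B hs hsk hff hef hP hy
    have h3 := np_stable B hs hsk hle hid hee hff hef hP hy hn
    have h4 : B (y n) f = 0 := by
      have h5 := hsk y hy n f
      have h6 : B n (y f) = 0 := by
        have h7 : y f = B (y f) e • f + (y f - B (y f) e • f) := by abel
        rw [h7, map_add, map_smul, hn.2.1, smul_zero, zero_add]
        exact hcon _ hn _ h2
      rwa [h6, add_zero] at h5
    rw [h4, zero_smul, sub_zero] at h3
    have h5 : y (c • f + n) = (c * B (y f) e + B (y n) e) • f +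
        (c • (y f - B (y f) e • f) + (y n - B (y n) e • f)) := by
      rw [map_add, map_smul]
      module
    rw [h5]
    exact Submodule.add_mem_sup (Submodule.smul_mem _ _ (Submodule.mem_span_singleton_self _))
      ((Np B 𝔦 e f).add_mem ((Np B 𝔦 e f).smul_mem _ h2) h3)
  rcases hirr _ h1 with h2 | h2
  · have h3 : f ∈ Submodule.span K {f} ⊔ Np B 𝔦 e f :=
      (le_sup_left : _ ≤ Submodule.span K {f} ⊔ Np B 𝔦 e f) (Submodule.mem_span_singleton_self f)
    rw [h2, Submodule.mem_bot] at h3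
    rw [h3, map_zero] at hef
    exact zero_ne_one hef
  · have h3 : e ∈ Submodule.span K {f} ⊔ Np B 𝔦 e f := by
      rw [h2]
      trivial
    obtain ⟨x, hx, n, hn, hxn⟩ := Submodule.mem_sup.1 h3
    obtain ⟨c, rfl⟩ := Submodule.mem_span_singleton.1 hx
    rw [← hxn, map_add, LinearMap.add_apply, map_smul, LinearMap.smul_apply, hff, hn.2.1,
      smul_zero, add_zero] at hef
    exact zero_ne_one hef

omit [CharZero K] in
theorem np_brk {e f : U} (hef : B e f = 1) {w w' : U} (hw : w ∈ Np B 𝔦 e f)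
    (hw' : w' ∈ Np B 𝔦 f e) : B w' w • wd B f e - wd B w w' ∈ 𝔦 := by
  have hfe : B f e = 1 := by rw [hs, hef]
  have h1 := hid _ (hle hw.2.2) _ hw'.2.2
  rw [brk B _ (hsk _ (hle hw.2.2)), wd_apply, wd_apply, hs f w, hw.2.1, hfe, hw'.2.1] at h1
  have h2 : wd B ((0 : K) • e - (1 : K) • w) w' + wd B f (B w' w • e - (0 : K) • w) =
      B w' w • wd B f e - wd B w w' := by
    refine LinearMap.ext fun v => ?_
    simp only [LinearMap.sub_apply, LinearMap.add_apply, LinearMap.smul_apply, wd_apply, map_sub,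
      map_smul, smul_eq_mul]
    module
  rwa [h2] at h1

include hirr in
theorem np_le {e f : U} (hee : B e e = 0) (hff : B f f = 0) (hef : B e f = 1)
    (hP : ∀ x ∈ 𝔥, wd B e (x f - B (x f) e • f) ∈ 𝔦) : Np B 𝔦 f e ≤ Np B 𝔦 e f := by
  intro w' hw'
  obtain ⟨v, hv, w, hw, hvw⟩ := np_aniso B hs hsk hle hid hirr hee hff hef hP
  refine ⟨hw'.2.1, hw'.1, ?_⟩
  have h1 := np_brk B hs hsk hle hid hef hw hw'
  have h2 := hid _ (hle h1) _ hv.2.2
  rw [brk B _ (hsk _ (hle h1))] at h2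
  have h3 : (B w' w • wd B f e - wd B w w') e = -B w' w • e := by
    rw [LinearMap.sub_apply, LinearMap.smul_apply, wd_apply, wd_apply, hee, hef, hs e w, hw.1,
      hs e w', hw'.2.1]
    module
  have h4 : (B w' w • wd B f e - wd B w w') v = B v w • w' - B v w' • w := by
    rw [LinearMap.sub_apply, LinearMap.smul_apply, wd_apply, wd_apply, hv.1, hv.2.1]
    module
  rw [h3, h4] at h2
  have h5 : wd B (-B w' w • e) v + wd B e (B v w • w' - B v w' • w) =
      B v w • wd B e w' - (B w' w • wd B e v + B v w' • wd B e w) := by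
    refine LinearMap.ext fun x => ?_
    simp only [LinearMap.sub_apply, LinearMap.add_apply, LinearMap.smul_apply, wd_apply, map_sub,
      map_smul, smul_eq_mul]
    module
  rw [h5] at h2
  have h6 := 𝔦.add_mem h2 (𝔦.add_mem (𝔦.smul_mem (B w' w) hv.2.2) (𝔦.smul_mem (B v w') hw.2.2))
  rw [sub_add_cancel] at h6
  have h7 := 𝔦.smul_mem (B v w)⁻¹ h6
  rwa [smul_smul, inv_mul_cancel₀ hvw, one_smul] at h7

include hirr in
/-- The case of a hyperbolic pair. -/
theorem full_of_hyp {e f : U} (hee : B e e = 0) (hff : B f f = 0) (hef : B e f = 1)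
    (hP : ∀ x ∈ 𝔥, wd B e (x f - B (x f) e • f) ∈ 𝔦)
    (hM : ∀ x ∈ 𝔥, wd B f (x e - B (x e) f • e) ∈ 𝔦) : ∀ p q, wd B p q ∈ 𝔦 := by
  have hfe : B f e = 1 := by rw [hs, hef]
  have hN : Np B 𝔦 f e = Np B 𝔦 e f :=
    le_antisymm (np_le B hs hsk hle hid hirr hee hff hef hP)
      (np_le B hs hsk hle hid hirr hff hee hfe hM)
  have hst : ∀ y ∈ 𝔥, ∀ w ∈ Submodule.span K {e} ⊔ (Submodule.span K {f} ⊔ Np B 𝔦 e f),
      y w ∈ Submodule.span K {e} ⊔ (Submodule.span K {f} ⊔ Np B 𝔦 e f) := by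
    intro y hy w hw
    obtain ⟨x, hx, z, hz, rfl⟩ := Submodule.mem_sup.1 hw
    obtain ⟨x', hx', n, hn, rfl⟩ := Submodule.mem_sup.1 hz
    obtain ⟨c, rfl⟩ := Submodule.mem_span_singleton.1 hx
    obtain ⟨c', rfl⟩ := Submodule.mem_span_singleton.1 hx'
    have h1 := np_f B hs hsk hff hef hP hy
    have h2 := np_f B hs hsk hee hfe hM hy
    rw [hN] at h2
    have h3 := np_stable B hs hsk hle hid hee hff hef hP hy hn
    have h5 : y (c • e + (c' • f + n)) = (c * B (y e) f + B (y n) f) • e +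
        ((c' * B (y f) e + B (y n) e) • f + (c • (y e - B (y e) f • e) +
          (c' • (y f - B (y f) e • f) + (y n - B (y n) f • e - B (y n) e • f)))) := by
      rw [map_add, map_add, map_smul, map_smul]
      module
    rw [h5]
    refine Submodule.add_mem_sup (Submodule.smul_mem _ _ (Submodule.mem_span_singleton_self _))
      (Submodule.add_mem_sup (Submodule.smul_mem _ _ (Submodule.mem_span_singleton_self _))
        ((Np B 𝔦 e f).add_mem ((Np B 𝔦 e f).smul_mem _ h2)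
          ((Np B 𝔦 e f).add_mem ((Np B 𝔦 e f).smul_mem _ h1) h3)))
  have htop : ∀ u : U, ∃ (c c' : K) (n : U), n ∈ Np B 𝔦 e f ∧ u = c • e + (c' • f + n) := by
    intro u
    have h1 : u ∈ Submodule.span K {e} ⊔ (Submodule.span K {f} ⊔ Np B 𝔦 e f) := by
      rcases hirr _ hst with h2 | h2
      · have h3 : f ∈ Submodule.span K {e} ⊔ (Submodule.span K {f} ⊔ Np B 𝔦 e f) :=
          (le_sup_left.trans le_sup_right : Submodule.span K {f} ≤ _)
            (Submodule.mem_span_singleton_self f)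
        rw [h2, Submodule.mem_bot] at h3
        rw [h3, map_zero] at hef
        exact absurd hef zero_ne_one
      · rw [h2]
        trivial
    obtain ⟨x, hx, z, hz, h2⟩ := Submodule.mem_sup.1 h1
    obtain ⟨x', hx', n, hn, rfl⟩ := Submodule.mem_sup.1 hz
    obtain ⟨c, rfl⟩ := Submodule.mem_span_singleton.1 hx
    obtain ⟨c', rfl⟩ := Submodule.mem_span_singleton.1 hx'
    exact ⟨c, c', n, hn, h2.symm⟩
  have hfe' : wd B f e ∈ 𝔦 := by
    obtain ⟨v, hv, w, hw, hvw⟩ := np_aniso B hs hsk hle hid hirr hee hff hef hP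
    have h1 := np_brk B hs hsk hle hid hef hv (hN ▸ hw : w ∈ Np B 𝔦 f e)
    have h2 := np_brk B hs hsk hle hid hef hw (hN ▸ hv : v ∈ Np B 𝔦 f e)
    have h3 := 𝔦.add_mem h1 h2
    have h4 : B w v • wd B f e - wd B v w + (B v w • wd B f e - wd B w v) =
        (2 * B v w) • wd B f e := by
      rw [hs w v, wd_comm B v w]
      module
    rw [h4] at h3
    have h5 := 𝔦.smul_mem (2 * B v w)⁻¹ h3
    rwa [smul_smul, inv_mul_cancel₀ (mul_ne_zero two_ne_zero hvw), one_smul] at h5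
  have hww : ∀ w ∈ Np B 𝔦 e f, ∀ w' ∈ Np B 𝔦 e f, wd B w w' ∈ 𝔦 := by
    intro w hw w' hw'
    have h1 := np_brk B hs hsk hle hid hef hw (hN ▸ hw' : w' ∈ Np B 𝔦 f e)
    have h2 := 𝔦.sub_mem (𝔦.smul_mem (B w' w) hfe') h1
    rwa [sub_sub_cancel] at h2
  have hfw : ∀ w ∈ Np B 𝔦 e f, wd B f w ∈ 𝔦 := fun w hw => (hN ▸ hw : w ∈ Np B 𝔦 f e).2.2
  intro p q
  obtain ⟨c, c', n, hn, rfl⟩ := htop p
  obtain ⟨d, d', n', hn', rfl⟩ := htop q
  have h1 : wd B (c • e + (c' • f + n)) (d • e + (d' • f + n')) =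
      (c' * d - c * d') • wd B f e + (c • wd B e n' - d • wd B e n) +
        (c' • wd B f n' - d' • wd B f n) + wd B n n' := by
    refine LinearMap.ext fun x => ?_
    simp only [LinearMap.sub_apply, LinearMap.add_apply, LinearMap.smul_apply, wd_apply, map_add,
      map_smul, smul_eq_mul]
    module
  rw [h1]
  exact 𝔦.add_mem (𝔦.add_mem (𝔦.add_mem (𝔦.smul_mem _ hfe')
    (𝔦.sub_mem (𝔦.smul_mem _ hn'.2.2) (𝔦.smul_mem _ hn.2.2)))
    (𝔦.sub_mem (𝔦.smul_mem _ (hfw _ hn')) (𝔦.smul_mem _ (hfw _ hn)))) (hww _ hn _ hn')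

end full

end Pool.Agent.H86.T3
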