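import Mathlib
import Pool.Agent.H86.T3.Base

/-!
# The Lie algebra of the Tate classes acts irreducibly on the strongly irreducible subspaces
-/

set_option autoImplicit false

namespace Pool.Agent.H86.T3

open Module Pool.Agent.H204R3.SP Pool.Agent.H204R3.GP Pool.Agent.W522.U

variable {K : Type} [Field K] [CharZero K] {X : Type} [AddCommGroup X] [Module K X]
  [FiniteDimensional K X] {Γ : Type} [Group Γ] {R : Representation K Γ X} {χ : Γ →* K}

/-- Operators which commute with all elements of the Lie algebra commute with a subgroup of finite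
index. -/
def Cent (R : Representation K Γ X) (χ : Γ →* K) : Prop :=
  ∀ Z : End K X, (∀ Y ∈ lieT R χ, ∀ x, Y (Z x) = Z (Y x)) →
    ∃ Δ : Subgroup Γ, Δ.FiniteIndex ∧ ∀ g ∈ Δ, ∀ x, Z (R g x) = R g (Z x)

/-- stable under the Lie algebra -/
def LSt (R : Representation K Γ X) (χ : Γ →* K) (W : Submodule K X) : Prop :=
  ∀ Y ∈ lieT R χ, ∀ w ∈ W, Y w ∈ W

omit [CharZero K] [FiniteDimensional K X] in
theorem LSt.inf {W W' : Submodule K X} (h : LSt R χ W) (h' : LSt R χ W') : LSt R χ (W ⊓ W') :=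
  fun Y hY w hw => ⟨h Y hY w hw.1, h' Y hY w hw.2⟩

omit [CharZero K] [FiniteDimensional K X] in
theorem LSt.sup {W W' : Submodule K X} (h : LSt R χ W) (h' : LSt R χ W') : LSt R χ (W ⊔ W') := by
  intro Y hY w hw
  obtain ⟨a, ha, b, hb, rfl⟩ := Submodule.mem_sup.1 hw
  rw [map_add]
  exact Submodule.add_mem_sup (h Y hY a ha) (h' Y hY b hb)

omit [CharZero K] [FiniteDimensional K X] in
theorem LSt.mapR {W : Submodule K X} (h : LSt R χ W) (g : Γ) : LSt R χ (W.map (R g)) := by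
  rintro Y hY _ ⟨w, hw, rfl⟩
  have h1 := lieT_conj R χ g⁻¹ hY
  rw [inv_inv] at h1
  refine ⟨(R g⁻¹ * Y * R g) w, h _ h1 w hw, ?_⟩
  change R g (R g⁻¹ (Y (R g w))) = Y (R g w)
  rw [Rinv']

/-- a minimal nonzero subspace stable under the Lie algebra -/
def LMin (R : Representation K Γ X) (χ : Γ →* K) (W : Submodule K X) : Prop :=
  W ≠ ⊥ ∧ LSt R χ W ∧ ∀ W' ≤ W, LSt R χ W' → W' = ⊥ ∨ W' = W

omit [CharZero K] [FiniteDimensional K X] in
theorem map_inv_map (g : Γ) (W : Submodule K X) : (W.map (R g)).map (R g⁻¹) = W := by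
  rw [← Submodule.map_comp]
  have h4 : (R g⁻¹).comp (R g) = LinearMap.id := by
    ext v
    exact Rinv g v
  rw [h4, Submodule.map_id]

omit [CharZero K] [FiniteDimensional K X] in
theorem map_map_inv (g : Γ) (W : Submodule K X) : (W.map (R g⁻¹)).map (R g) = W := by
  have h1 := map_inv_map (R := R) g⁻¹ W
  rwa [inv_inv] at h1

omit [CharZero K] [FiniteDimensional K X] in
theorem LMin.mapR {W : Submodule K X} (h : LMin R χ W) (g : Γ) : LMin R χ (W.map (R g)) := by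
  obtain ⟨h1, h2, h3⟩ := h
  refine ⟨fun h => h1 ?_, h2.mapR g, fun W' hW' hs => ?_⟩
  · rw [← map_inv_map (R := R) g W, h, Submodule.map_bot]
  · rcases h3 (W'.map (R g⁻¹)) (by
      rw [← map_inv_map (R := R) g W]
      exact Submodule.map_mono hW') (hs.mapR g⁻¹) with h4 | h4
    · left
      rw [← map_map_inv (R := R) g W', h4, Submodule.map_bot]
    · right
      rw [← map_map_inv (R := R) g W', h4]

omit [CharZero K] in
theorem exists_LMin {W0 : Submodule K X} (h0 : W0 ≠ ⊥) (hs : LSt R χ W0) :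
    ∃ W ≤ W0, LMin R χ W := by
  classical
  have hex : ∃ n, ∃ W ≤ W0, W ≠ ⊥ ∧ LSt R χ W ∧ finrank K W = n := ⟨_, W0, le_rfl, h0, hs, rfl⟩
  obtain ⟨W, h1, h2, h3, h4⟩ := Nat.find_spec hex
  refine ⟨W, h1, h2, h3, fun W' hW' hs' => ?_⟩
  by_cases h5 : W' = ⊥
  · exact Or.inl h5
  · right
    refine Submodule.eq_of_le_of_finrank_le hW' ?_
    rw [h4]
    exact Nat.find_min' hex ⟨W', hW'.trans h1, h5, hs', rfl⟩

omit [CharZero K] in
/-- a complement which is stable under the Lie algebra -/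
theorem exists_compl {U W : Submodule K X} (hU : SI R U) (hW : LMin R χ W)
    (hWU : W ≤ U) : ∃ C ≤ U, LSt R χ C ∧ C ⊓ W = ⊥ ∧ C ⊔ W = U := by
  classical
  obtain ⟨Δ, hΔ, hst⟩ := hU.2.1
  -- a maximal stable subspace disjoint from `W`
  have hfin : ∀ n, (∃ C ≤ U, LSt R χ C ∧ C ⊓ W = ⊥ ∧ finrank K C = n) → n ≤ finrank K X := by
    rintro n ⟨C, -, -, -, rfl⟩
    exact Submodule.finrank_le C
  have hex : ∃ n, ∃ C ≤ U, LSt R χ C ∧ C ⊓ W = ⊥ ∧ finrank K C = n :=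
    ⟨0, ⊥, bot_le, fun Y _ w hw => by
      rw [Submodule.mem_bot] at hw ⊢
      rw [hw, map_zero], bot_inf_eq _, finrank_bot K X⟩
  obtain ⟨n, ⟨C, hCU, hCs, hCW, hCn⟩, hmax⟩ : ∃ n, (∃ C ≤ U, LSt R χ C ∧ C ⊓ W = ⊥ ∧
      finrank K C = n) ∧ ∀ n', (∃ C ≤ U, LSt R χ C ∧ C ⊓ W = ⊥ ∧ finrank K C = n') → n' ≤ n := by
    let S : Set ℕ := {n | ∃ C ≤ U, LSt R χ C ∧ C ⊓ W = ⊥ ∧ finrank K C = n}
    have hS : S.Nonempty := hex
    have hb : BddAbove S := ⟨finrank K X, fun n hn => hfin n hn⟩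
    exact ⟨sSup S, Nat.sSup_mem hS hb, fun n' hn' => le_csSup hb hn'⟩
  refine ⟨C, hCU, hCs, hCW, ?_⟩
  by_contra hcon
  -- some translate of `W` is not contained in `C ⊔ W`
  have h1 : ∃ g ∈ Δ, ¬W.map (R g) ≤ C ⊔ W := by
    by_contra h2
    push Not at h2
    have h3 : Pot R (⨆ g ∈ Δ, W.map (R g)) := by
      refine ⟨Δ, hΔ, fun g hg u hu => ?_⟩
      have h4 : (⨆ g ∈ Δ, W.map (R g)).map (R g) ≤ ⨆ g ∈ Δ, W.map (R g) := by
        rw [Submodule.map_iSup]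
        refine iSup_le fun g' => ?_
        rw [Submodule.map_iSup]
        refine iSup_le fun hg' => ?_
        have h5 : (W.map (R g')).map (R g) = W.map (R (g * g')) := by
          rw [← Submodule.map_comp, map_mul]
          rfl
        rw [h5]
        exact le_iSup₂_of_le (g * g') (Δ.mul_mem hg hg') le_rfl
      exact h4 (Submodule.mem_map_of_mem hu)
    have h4 : (⨆ g ∈ Δ, W.map (R g)) ≤ U := by
      refine iSup₂_le fun g hg => ?_
      rintro _ ⟨w, hw, rfl⟩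
      exact hst g hg w (hWU hw)
    have h5 : W ≤ ⨆ g ∈ Δ, W.map (R g) := by
      refine le_iSup₂_of_le 1 Δ.one_mem ?_
      rw [map_one]
      exact (Submodule.map_id W).ge
    rcases hU.2.2 _ h4 h3 with h6 | h6
    · rw [h6, le_bot_iff] at h5
      exact hW.1 h5
    · apply hcon
      refine le_antisymm (sup_le hCU hWU) ?_
      rw [← h6]
      exact iSup₂_le h2
  obtain ⟨g, hg, hgW⟩ := h1
  have hgm := hW.mapR g
  have hgU : W.map (R g) ≤ U := by
    rintro _ ⟨w, hw, rfl⟩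
    exact hst g hg w (hWU hw)
  have h2 : W.map (R g) ⊓ (C ⊔ W) = ⊥ := by
    rcases hgm.2.2 _ inf_le_left (hgm.2.1.inf (hCs.sup hW.2.1)) with h3 | h3
    · exact h3
    · exact absurd (inf_eq_left.1 h3) hgW
  have h3 : (C ⊔ W.map (R g)) ⊓ W = ⊥ := by
    rw [Submodule.eq_bot_iff]
    intro x hx
    obtain ⟨c, hc, w, hw, hcw⟩ := Submodule.mem_sup.1 hx.1
    have h4 : w ∈ W.map (R g) ⊓ (C ⊔ W) := by
      refine ⟨hw, ?_⟩
      have h5 : w = -c + x := by rw [← hcw]; abel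
      rw [h5]
      exact Submodule.add_mem_sup (C.neg_mem hc) hx.2
    rw [h2, Submodule.mem_bot] at h4
    have h5 : x ∈ C ⊓ W := by
      refine ⟨?_, hx.2⟩
      rw [← hcw, h4, add_zero]
      exact hc
    rwa [hCW, Submodule.mem_bot] at h5
  have h4 := hmax _ ⟨C ⊔ W.map (R g), sup_le hCU hgU, hCs.sup hgm.2.1, h3, rfl⟩
  have h5 : C < C ⊔ W.map (R g) := by
    refine lt_of_le_of_ne le_sup_left fun h6 => ?_
    apply hgW
    calc W.map (R g) ≤ C ⊔ W.map (R g) := le_sup_right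
      _ = C := h6.symm
      _ ≤ C ⊔ W := le_sup_left
  have h6 := Submodule.finrank_lt_finrank_of_lt h5
  omega

variable (ω : X →ₗ[K] X →ₗ[K] K) (hnd : ∀ u, (∀ v, ω u v = 0) → u = 0)
  (hωR : ∀ g u v, ω (R g u) (R g v) = χ g * ω u v) (hss : HasProj R) (hcent : Cent R χ)

include hnd hωR hss hcent in
/-- **Irreducibility.** -/
theorem irr {U : Submodule K X} (hU : SI R U) {W : Submodule K X} (hWU : W ≤ U)
    (hW : LSt R χ W) : W = ⊥ ∨ W = U := by
  by_cases h0 : W = ⊥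
  · exact Or.inl h0
  right
  have hUs : LSt R χ U := fun Y hY u hu =>
    Pool.Agent.TH118.CR.lieT_stable ω hnd hωR hss hU.2.1 hY u hu
  obtain ⟨W1, hW1, hm⟩ := exists_LMin h0 hW
  obtain ⟨C, hCU, hCs, hCW, hCWU⟩ := exists_compl hU hm (hW1.trans hWU)
  obtain ⟨Δ, hΔ, hst⟩ := hU.2.1
  obtain ⟨p, hp1, hp2, hp3⟩ := hss Δ hΔ U hst
  have hpL : ∀ Y ∈ lieT R χ, ∀ x, Y (p x) = p (Y x) := fun Y hY x =>
    Pool.Agent.W839.OT.HTFam.comm R χ ω hnd hωR Δ hΔ p hp3 Y hY x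
  have hcompl : IsCompl W1 (C ⊔ LinearMap.ker p) := by
    constructor
    · rw [Submodule.disjoint_def]
      intro x hx hx'
      obtain ⟨c, hc, z, hz, hcz⟩ := Submodule.mem_sup.1 hx'
      have h1 : p x = x := hp2 x (hWU (hW1 hx))
      have h2 : p x = c := by
        rw [← hcz, map_add, hp2 c (hCU hc), LinearMap.mem_ker.1 hz, add_zero]
      have h3 : x ∈ C ⊓ W1 := ⟨by rw [← h1, h2]; exact hc, hx⟩
      rwa [hCW, Submodule.mem_bot] at h3
    · rw [codisjoint_iff, eq_top_iff]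
      intro x _
      have h1 : p x ∈ C ⊔ W1 := by
        rw [hCWU]
        exact hp1 x
      obtain ⟨c, hc, w, hw, hcw⟩ := Submodule.mem_sup.1 h1
      have h2 : x = w + (c + (x - p x)) := by rw [← hcw]; abel
      rw [h2]
      refine Submodule.add_mem_sup hw (Submodule.add_mem_sup hc ?_)
      rw [LinearMap.mem_ker, map_sub, hp2 (p x) (hp1 x), sub_self]
  let Z : End K X := W1.subtype ∘ₗ Submodule.projectionOnto W1 _ hcompl
  have hZ1 : ∀ w ∈ W1, Z w = w := by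
    intro w hw
    change ((Submodule.projectionOnto W1 _ hcompl w : W1) : X) = w
    exact congrArg Subtype.val (Submodule.projectionOnto_apply_left hcompl ⟨w, hw⟩)
  have hZ0 : ∀ w ∈ C ⊔ LinearMap.ker p, Z w = 0 := by
    intro w hw
    change ((Submodule.projectionOnto W1 _ hcompl w : W1) : X) = 0
    rw [Submodule.projectionOnto_apply_of_mem_right hcompl hw, Submodule.coe_zero]
  have hZW : ∀ x, Z x ∈ W1 := fun x => SetLike.coe_mem _
  have hdec : ∀ x : X, ∃ a ∈ W1, ∃ b ∈ C ⊔ LinearMap.ker p, x = a + b := by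
    intro x
    have h1 : x ∈ W1 ⊔ (C ⊔ LinearMap.ker p) := by
      rw [hcompl.sup_eq_top]
      trivial
    obtain ⟨a, ha, b, hb, h⟩ := Submodule.mem_sup.1 h1
    exact ⟨a, ha, b, hb, h.symm⟩
  have hker : LSt R χ (LinearMap.ker p) := by
    intro Y hY w hw
    rw [LinearMap.mem_ker] at hw ⊢
    rw [← hpL Y hY, hw, map_zero]
  have hZL : ∀ Y ∈ lieT R χ, ∀ x, Y (Z x) = Z (Y x) := by
    intro Y hY x
    obtain ⟨a, ha, b, hb, rfl⟩ := hdec x
    rw [map_add, hZ1 a ha, hZ0 b hb, add_zero, map_add Y, map_add Z,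
      hZ1 _ (hm.2.1 Y hY a ha), hZ0 _ ((hCs.sup hker) Y hY b hb), add_zero]
  obtain ⟨Δ', hΔ', hZΔ⟩ := hcent Z hZL
  have hpot : Pot R W1 := by
    refine ⟨Δ', hΔ', fun g hg w hw => ?_⟩
    have h1 := hZΔ g hg w
    rw [hZ1 w hw] at h1
    rw [← h1]
    exact hZW _
  rcases hU.2.2 W1 (hW1.trans hWU) hpot with h1 | h1
  · exact absurd h1 hm.1
  · exact le_antisymm hWU (by rw [← h1]; exact hW1)

/-- An isomorphism over a subgroup of finite index gives an operator which commutes with the Lie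
algebra. -/
theorem iso_op {U U' : Submodule K X} (hU : SI R U) (hU' : SI R U')
    (ω : X →ₗ[K] X →ₗ[K] K) (hnd : ∀ u, (∀ v, ω u v = 0) → u = 0)
    (hωR : ∀ g u v, ω (R g u) (R g v) = χ g * ω u v) (hss : HasProj R)
    (h : Tw R (fun _ => 1) U U') : ∃ Z : End K X, U.map Z = U' ∧
      (∃ Δ : Subgroup Γ, Δ.FiniteIndex ∧ ∀ g ∈ Δ, ∀ x, Z (R g x) = R g (Z x)) ∧
      ∀ Y ∈ lieT R χ, ∀ x, Y (Z x) = Z (Y x) := by
  obtain ⟨Δ, hΔ, T, hTU, h0, hT⟩ := h
  obtain ⟨Δ', hΔ', hst⟩ := hU.2.1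
  obtain ⟨p, hp1, hp2, hp3⟩ := hss Δ' hΔ' U hst
  have h1 : ∀ g ∈ Δ ⊓ Δ', ∀ x, (T ∘ₗ p) (R g x) = R g ((T ∘ₗ p) x) := by
    intro g hg x
    rw [LinearMap.comp_apply, LinearMap.comp_apply, hp3 g hg.2, hT g hg.1 _ (hp1 x), one_smul]
  refine ⟨T ∘ₗ p, ?_, ⟨Δ ⊓ Δ', inferInstance, h1⟩, fun Y hY x =>
    Pool.Agent.W839.OT.HTFam.comm R χ ω hnd hωR (Δ ⊓ Δ') inferInstance _ h1 Y hY x⟩
  rw [← tw_map hU hU' hΔ hTU h0 hT]
  ext x
  constructor
  · rintro ⟨u, hu, rfl⟩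
    exact ⟨p u, hp1 u, rfl⟩
  · rintro ⟨u, hu, rfl⟩
    refine ⟨u, hu, ?_⟩
    rw [LinearMap.comp_apply, hp2 u hu]

end Pool.Agent.H86.T3
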