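import Mathlib
import Pool.Agent.H86.T3.Irr
import Pool.Agent.H86.T3.Hyp

/-!
# The ideal of an orthogonal part
-/

set_option autoImplicit false

namespace Pool.Agent.H86.T3

open Module Pool.Agent.H204R3.SP Pool.Agent.H204R3.GP Pool.Agent.W522.U

variable {K : Type} [Field K] [CharZero K] {X : Type} [AddCommGroup X] [Module K X]
  [FiniteDimensional K X] {Γ : Type} [Group Γ] {R : Representation K Γ X} {χ : Γ →* K}

/-- `γ` stabilizes `V`, and `κ` is not an eigenvalue of the conjugation by `γ` on the operators of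
`V` (it is not the quotient of two eigenvalues of `γ` on `V`). -/
def NoRatio (R : Representation K Γ X) (γ : Γ) (κ : K) (V : Submodule K X) : Prop :=
  (∀ u ∈ V, R γ u ∈ V) ∧ ∀ Y : End K X, (∀ u ∈ V, Y u ∈ V) →
    (∀ u ∈ V, R γ (Y u) = κ • Y (R γ u)) → ∀ u ∈ V, Y u = 0

/-- The form `B` is symmetric and nonzero on `U`, and a subgroup of finite index acts on it by the
character `χ`. -/
def OrthForm (R : Representation K Γ X) (χ : Γ →* K) (U : Submodule K X)
    (B : X →ₗ[K] X →ₗ[K] K) : Prop :=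
  (∀ u ∈ U, ∀ v ∈ U, B u v = B v u) ∧ (∃ u ∈ U, ∃ v ∈ U, B u v ≠ 0) ∧
    ∃ Δ : Subgroup Γ, Δ.FiniteIndex ∧ ∀ g ∈ Δ, ∀ u ∈ U, ∀ v ∈ U, B (R g u) (R g v) = χ g * B u v

/-- conjugation by `γ` minus `κ` -/
def Dk (R : Representation K Γ X) (γ : Γ) (κ : K) : End K (End K X) :=
  LinearMap.mulLeft K (R γ) ∘ₗ LinearMap.mulRight K (R γ⁻¹) - κ • 1

omit [CharZero K] [FiniteDimensional K X] in
theorem Dk_apply (γ : Γ) (κ : K) (x : End K X) (u : X) :
    Dk R γ κ x u = R γ (x (R γ⁻¹ u)) - κ • x u := rfl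

omit [CharZero K] [FiniteDimensional K X] in
theorem Dk_mem (γ : Γ) (κ : K) {x : End K X} (hx : x ∈ lieT R χ) : Dk R γ κ x ∈ lieT R χ := by
  have h1 := lieT_conj R χ γ hx
  exact (lieT R χ).sub_mem h1 ((lieT R χ).smul_mem κ hx)

omit [CharZero K] in
/-- decomposition of the Lie algebra into generalized eigenspaces of the conjugation -/
theorem decomp [IsAlgClosed K] (γ : Γ) (P : Submodule K (End K X))
    (hP : ∀ (κ : K) (x : End K X) (n : ℕ), x ∈ lieT R χ → (Dk R γ κ ^ n) x = 0 → x ∈ P)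
    {x : End K X} (hx : x ∈ lieT R χ) : x ∈ P := by
  let A : End K (End K X) := LinearMap.mulLeft K (R γ) ∘ₗ LinearMap.mulRight K (R γ⁻¹)
  have hA : ∀ y ∈ lieT R χ, A y ∈ lieT R χ := by
    intro y hy
    exact lieT_conj R χ γ hy
  let f : End K (lieT R χ) := A.restrict hA
  have hf : ∀ (κ : K) (n : ℕ) (y : lieT R χ), (((f - κ • 1) ^ n) y : End K X) =
      (Dk R γ κ ^ n) y := by
    intro κ n
    induction n with
    | zero => intro y; rfl
    | succ n ih =>
      intro y
      rw [pow_succ, pow_succ, Module.End.mul_apply, Module.End.mul_apply, ih]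
      rfl
  have h1 := Module.End.iSup_maxGenEigenspace_eq_top f
  have h2 : (⟨x, hx⟩ : lieT R χ) ∈ ⨆ μ, f.maxGenEigenspace μ := by
    rw [h1]
    trivial
  have h3 : ∀ y : lieT R χ, y ∈ ⨆ μ, f.maxGenEigenspace μ → (y : End K X) ∈ P := by
    intro y hy
    refine Submodule.iSup_induction (fun μ => f.maxGenEigenspace μ)
      (motive := fun y => (y : End K X) ∈ P) hy (fun κ y hy => ?_) P.zero_mem
      (fun y z hy hz => P.add_mem hy hz)
    obtain ⟨n, hn⟩ := (Module.End.mem_maxGenEigenspace f κ y).1 hy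
    refine hP κ y n y.2 ?_
    rw [← hf, hn]
    rfl
  exact h3 _ h2

omit [CharZero K] [FiniteDimensional K X] in
/-- the action on eigenvectors -/
theorem gen_one (γ : Γ) (κ : K) {a : K} (ha : a ≠ 0) {v : X} (hv : R γ v = a • v) (n : ℕ) :
    ∀ x : End K X, a ^ n • (Dk R γ κ ^ n) x v = ((R γ - (κ * a) • 1) ^ n : End K X) (x v) := by
  have hv' : R γ⁻¹ v = a⁻¹ • v := by
    have h1 : v = a⁻¹ • R γ v := by rw [hv, smul_smul, inv_mul_cancel₀ ha, one_smul]
    conv_lhs => rw [h1]
    rw [map_smul, Rinv]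
  induction n with
  | zero => intro x; rw [pow_zero, pow_zero, pow_zero, one_smul]; rfl
  | succ n ih =>
    intro x
    rw [pow_succ (Dk R γ κ), Module.End.mul_apply, pow_succ a, mul_comm, mul_smul, ih,
      Dk_apply, hv', pow_succ, Module.End.mul_apply, ← map_smul]
    congr 1
    rw [LinearMap.sub_apply, LinearMap.smul_apply, Module.End.one_apply, map_smul, map_smul,
      smul_sub, smul_smul, mul_inv_cancel₀ ha, one_smul, smul_smul, mul_comm a κ]

omit [CharZero K] in
/-- Vanishing on a part without the ratio. -/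
theorem gen_zero {γ : Γ} {κ : K} {V : Submodule K X} (hV : NoRatio R γ κ V)
    (hst : ∀ x ∈ lieT R χ, ∀ u ∈ V, x u ∈ V) (n : ℕ) : ∀ x ∈ lieT R χ, (Dk R γ κ ^ n) x = 0 →
      ∀ u ∈ V, x u = 0 := by
  induction n with
  | zero =>
    intro x _ h u _
    have h1 : x = 0 := h
    rw [h1, LinearMap.zero_apply]
  | succ n ih =>
    intro x hx h u hu
    rw [pow_succ, Module.End.mul_apply] at h
    have h1 := ih _ (Dk_mem γ κ hx) h
    refine hV.2 x (hst x hx) (fun u hu => ?_) u hu
    have h2 := h1 (R γ u) (hV.1 u hu)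
    rw [Dk_apply, Rinv, sub_eq_zero] at h2
    exact h2

/-- the elements of the Lie algebra which vanish on the parts not isomorphic to `U` -/
def Idl (R : Representation K Γ X) (χ : Γ →* K) {I : Type} (E : I → Submodule K X)
    (U : Submodule K X) : Submodule K (End K X) where
  carrier := {x | x ∈ lieT R χ ∧ ∀ j, ¬Tw R (fun _ => 1) U (E j) → ∀ u ∈ E j, x u = 0}
  zero_mem' := ⟨(lieT R χ).zero_mem, fun _ _ _ _ => rfl⟩
  add_mem' := by
    rintro x y ⟨h1, h2⟩ ⟨h3, h4⟩
    exact ⟨(lieT R χ).add_mem h1 h3, fun j hj u hu => by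
      rw [LinearMap.add_apply, h2 j hj u hu, h4 j hj u hu, add_zero]⟩
  smul_mem' := by
    rintro c x ⟨h1, h2⟩
    exact ⟨(lieT R χ).smul_mem c h1, fun j hj u hu => by
      rw [LinearMap.smul_apply, h2 j hj u hu, smul_zero]⟩

/-- the operators of `U` induced by the elements of `C` -/
def ind (C : Submodule K (End K X)) (U : Submodule K X) : Submodule K (End K U) where
  carrier := {y | ∃ x ∈ C, ∀ u : U, ((y u : U) : X) = x u}
  zero_mem' := ⟨0, C.zero_mem, fun _ => rfl⟩
  add_mem' := by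
    rintro y y' ⟨x, hx, h⟩ ⟨x', hx', h'⟩
    refine ⟨x + x', C.add_mem hx hx', fun u => ?_⟩
    rw [LinearMap.add_apply, Submodule.coe_add, h, h', LinearMap.add_apply]
  smul_mem' := by
    rintro c y ⟨x, hx, h⟩
    refine ⟨c • x, C.smul_mem c hx, fun u => ?_⟩
    rw [LinearMap.smul_apply, Submodule.coe_smul, h, LinearMap.smul_apply]

end Pool.Agent.H86.T3
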