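import Mathlib
import Pool.Agent.H86.T3.Part

/-!
# The operators induced on an orthogonal part
-/

set_option autoImplicit false

namespace Pool.Agent.H86.T3

open Module Pool.Agent.H204R3.SP Pool.Agent.H204R3.GP Pool.Agent.W522.U

variable {K : Type} [Field K] [CharZero K] {X : Type} [AddCommGroup X] [Module K X]
  [FiniteDimensional K X] {Γ : Type} [Group Γ] {R : Representation K Γ X} {χ : Γ →* K}
  {I : Type} {E : I → Submodule K X} {U : Submodule K X}

/-- the restriction of a form to `U` -/
def BU (B : X →ₗ[K] X →ₗ[K] K) (U : Submodule K X) : U →ₗ[K] U →ₗ[K] K :=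
  B.compl₁₂ U.subtype U.subtype

omit [CharZero K] [FiniteDimensional K X] in
theorem BU_apply (B : X →ₗ[K] X →ₗ[K] K) (u v : U) : BU B U u v = B u v := rfl

omit [CharZero K] [FiniteDimensional K X] in
theorem idl_le : Idl R χ E U ≤ lieT R χ := fun _ hx => hx.1

omit [CharZero K] [FiniteDimensional K X] in
theorem idl_brk (hst : ∀ j, ∀ x ∈ lieT R χ, ∀ u ∈ E j, x u ∈ E j) {x z : End K X}
    (hx : x ∈ lieT R χ) (hz : z ∈ Idl R χ E U) : x * z - z * x ∈ Idl R χ E U := by
  refine ⟨lieT_bracket R χ hx hz.1, fun j hj u hu => ?_⟩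
  rw [LinearMap.sub_apply, Module.End.mul_apply, Module.End.mul_apply, hz.2 j hj u hu,
    hz.2 j hj _ (hst j x hx u hu), map_zero, sub_zero]

omit [CharZero K] [FiniteDimensional K X] in
theorem ind_mono {C D : Submodule K (End K X)} (h : C ≤ D) : ind C U ≤ ind D U := by
  rintro y ⟨x, hx, hxy⟩
  exact ⟨x, h hx, hxy⟩

omit [CharZero K] [FiniteDimensional K X] in
theorem ind_brk (hst : ∀ j, ∀ x ∈ lieT R χ, ∀ u ∈ E j, x u ∈ E j) {y z : End K U}
    (hy : y ∈ ind (lieT R χ) U) (hz : z ∈ ind (Idl R χ E U) U) :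
    y * z - z * y ∈ ind (Idl R χ E U) U := by
  obtain ⟨x, hx, hxy⟩ := hy
  obtain ⟨w, hw, hwz⟩ := hz
  refine ⟨x * w - w * x, idl_brk hst hx hw, fun u => ?_⟩
  rw [LinearMap.sub_apply, Module.End.mul_apply, Module.End.mul_apply, Submodule.coe_sub, hxy, hwz,
    hwz, hxy, LinearMap.sub_apply, Module.End.mul_apply, Module.End.mul_apply]

omit [CharZero K] [FiniteDimensional K X] in
theorem ind_irr (h : ∀ W ≤ U, LSt R χ W → W = ⊥ ∨ W = U)
    (hst : ∀ x ∈ lieT R χ, ∀ u ∈ U, x u ∈ U) (W : Submodule K U)
    (hW : ∀ y ∈ ind (lieT R χ) U, ∀ w ∈ W, y w ∈ W) : W = ⊥ ∨ W = ⊤ := by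
  have h1 : LSt R χ (W.map U.subtype) := by
    rintro x hx _ ⟨w, hw, rfl⟩
    have h2 : (x.restrict (hst x hx)) ∈ ind (lieT R χ) U := ⟨x, hx, fun _ => rfl⟩
    exact ⟨_, hW _ h2 w hw, rfl⟩
  rcases h _ (Submodule.map_subtype_le _ _) h1 with h2 | h2
  · left
    rw [eq_bot_iff]
    intro w hw
    have h3 : (w : X) ∈ W.map U.subtype := ⟨w, hw, rfl⟩
    rw [h2, Submodule.mem_bot] at h3
    rw [Submodule.mem_bot]
    exact Subtype.ext h3
  · right
    rw [eq_top_iff]
    intro w _
    have h3 : (w : X) ∈ W.map U.subtype := by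
      rw [h2]
      exact w.2
    obtain ⟨w', hw', hww⟩ := h3
    have h4 : w' = w := Subtype.ext hww
    rw [← h4]
    exact hw'

/-- The assumptions on the Lie algebra and the part `U`, with its form. -/
structure Good (R : Representation K Γ X) (χ : Γ →* K) (E : I → Submodule K X)
    (U : Submodule K X) (B : X →ₗ[K] X →ₗ[K] K) : Prop where
  /-- the form is symmetric -/
  symm : ∀ u ∈ U, ∀ v ∈ U, B u v = B v u
  /-- the form is nondegenerate -/
  nondeg : ∀ u ∈ U, (∀ v ∈ U, B u v = 0) → u = 0
  /-- the elements of the Lie algebra are skew -/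
  skew : ∀ x ∈ lieT R χ, ∀ u ∈ U, ∀ v ∈ U, B (x u) v + B u (x v) = 0
  /-- `U` is stable -/
  stU : ∀ x ∈ lieT R χ, ∀ u ∈ U, x u ∈ U
  /-- the parts are stable -/
  st : ∀ j, ∀ x ∈ lieT R χ, ∀ u ∈ E j, x u ∈ E j
  /-- irreducibility -/
  irr : ∀ W ≤ U, LSt R χ W → W = ⊥ ∨ W = U

variable {B : X →ₗ[K] X →ₗ[K] K}

omit [CharZero K] in
/-- From operators of rank two to all skew operators. -/
theorem Good.full [CharZero K] (h : Good R χ E U B)
    (hw : ∀ p q : U, wd (BU B U) p q ∈ ind (Idl R χ E U) U) (Y : End K X)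
    (hYU : ∀ u ∈ U, Y u ∈ U) (hY : ∀ u ∈ U, ∀ v ∈ U, B (Y u) v + B u (Y v) = 0) :
    ∃ z ∈ Idl R χ E U, ∀ u ∈ U, z u = Y u := by
  have h1 : Y.restrict hYU ∈ ind (Idl R χ E U) U := by
    refine skew_mem (BU B U) (fun u v => h.symm u u.2 v v.2) (fun u hu => ?_) hw
      (fun u v => hY u u.2 v v.2)
    exact Subtype.ext (h.nondeg u u.2 fun v hv => hu ⟨v, hv⟩)
  obtain ⟨z, hz, hzY⟩ := h1
  exact ⟨z, hz, fun u hu => (hzY ⟨u, hu⟩).symm⟩

omit [CharZero K] in
/-- The case of a reflection. -/
theorem Good.refl [CharZero K] [IsAlgClosed K] (h : Good R χ E U B) {γ : Γ} {c : K} {a : X}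
    (ha : a ∈ U) (haa : B a a = 1) (hγ : ∀ u ∈ U, R γ u = c • (u - (2 * B u a) • a))
    (hsep : ∀ j, ¬Tw R (fun _ => 1) U (E j) → NoRatio R γ (-1) (E j)) :
    ∀ p q : U, wd (BU B U) p q ∈ ind (Idl R χ E U) U := by
  have hc : c ≠ 0 := by
    rintro rfl
    have h1 := hγ a ha
    rw [zero_smul] at h1
    have h2 : a ≠ 0 := by
      rintro rfl
      rw [map_zero] at haa
      exact zero_ne_one haa
    exact Rne (R := R) γ h2 h1
  have hγa : R γ a = (-c) • a := by
    rw [hγ a ha, haa]
    module
  have hγv : ∀ v ∈ U, B v a = 0 → R γ v = c • v := by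
    intro v hv h0
    rw [hγ v hv, h0, mul_zero, zero_smul, sub_zero]
  have hxa0 : ∀ x ∈ lieT R χ, B (x a) a = 0 := by
    intro x hx
    have h1 := h.skew x hx a ha a ha
    rw [h.symm a ha (x a) (h.stU x hx a ha)] at h1
    have h3 : (2 : K) * B (x a) a = 0 := by linear_combination h1
    exact (mul_eq_zero.1 h3).resolve_left two_ne_zero
  -- the space of the operators for which the claim holds
  let P : Submodule K (End K X) :=
    { carrier := {x | ∃ z ∈ Idl R χ E U, ∀ u ∈ U, z u = B u (x a) • a - B u a • x a}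
      zero_mem' := ⟨0, Submodule.zero_mem _, fun u _ => by simp⟩
      add_mem' := by
        rintro x y ⟨z, hz, h1⟩ ⟨w, hw, h2⟩
        refine ⟨z + w, Submodule.add_mem _ hz hw, fun u hu => ?_⟩
        rw [LinearMap.add_apply, h1 u hu, h2 u hu, LinearMap.add_apply, map_add]
        module
      smul_mem' := by
        rintro r x ⟨z, hz, h1⟩
        refine ⟨r • z, Submodule.smul_mem _ _ hz, fun u hu => ?_⟩
        rw [LinearMap.smul_apply, h1 u hu, LinearMap.smul_apply, map_smul, smul_eq_mul]
        module }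
  have hpow : ∀ (s : K) (n : ℕ) (v : X), v ∈ U → B v a = 0 →
      ((R γ - s • 1) ^ n : End K X) v = (c - s) ^ n • v := by
    intro s n v hv h0
    induction n with
    | zero => rw [pow_zero, pow_zero, one_smul]; rfl
    | succ n ih =>
      rw [pow_succ, Module.End.mul_apply, LinearMap.sub_apply, hγv v hv h0, LinearMap.smul_apply,
        Module.End.one_apply, ← sub_smul, map_smul, ih, smul_smul, pow_succ, mul_comm]
  have hpowa : ∀ (s : K) (n : ℕ), ((R γ - s • 1) ^ n : End K X) a = (-c - s) ^ n • a := by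
    intro s n
    induction n with
    | zero => rw [pow_zero, pow_zero, one_smul]; rfl
    | succ n ih =>
      rw [pow_succ, Module.End.mul_apply, LinearMap.sub_apply, hγa, LinearMap.smul_apply,
        Module.End.one_apply, ← sub_smul, map_smul, ih, smul_smul, pow_succ, mul_comm]
  have hne : a ≠ 0 := by
    rintro rfl
    rw [map_zero] at haa
    exact zero_ne_one haa
  have hP : ∀ x ∈ lieT R χ, x ∈ P := by
    intro x hx
    refine decomp γ P (fun κ x n hx hn => ?_) hx
    have hxaU := h.stU x hx a ha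
    have hxa := hxa0 x hx
    have h1 := gen_one (R := R) γ κ (neg_ne_zero.2 hc) hγa n x
    rw [hn, LinearMap.zero_apply, smul_zero, hpow _ n _ hxaU hxa] at h1
    by_cases hx0 : x a = 0
    · refine ⟨0, Submodule.zero_mem _, fun u _ => ?_⟩
      rw [hx0, map_zero, zero_smul, smul_zero, sub_zero, LinearMap.zero_apply]
    · have h2 := (smul_eq_zero.1 h1.symm).resolve_right hx0
      have h3 : c - κ * -c = 0 := by
        by_contra h4
        exact pow_ne_zero n h4 h2
      have hκ : κ = -1 := by
        have h4 : c * (κ + 1) = 0 := by linear_combination h3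
        have h5 := (mul_eq_zero.1 h4).resolve_left hc
        linear_combination h5
      subst hκ
      refine ⟨-x, Submodule.neg_mem _ ⟨hx, fun j hj u hu => ?_⟩, fun u hu => ?_⟩
      · exact gen_zero (hsep j hj) (h.st j) n x hx hn u hu
      · -- decompose `u`
        have hu1 : u - B u a • a ∈ U := U.sub_mem hu (U.smul_mem _ ha)
        have hu2 : B (u - B u a • a) a = 0 := by
          rw [map_sub, LinearMap.sub_apply, map_smul, LinearMap.smul_apply, haa, smul_eq_mul,
            mul_one, sub_self]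
        have hxu : ∀ v ∈ U, B v a = 0 → x v = B (x v) a • a := by
          intro v hv h0
          have hxvU := h.stU x hx v hv
          have h4 := gen_one (R := R) γ (-1) hc (hγv v hv h0) n x
          rw [hn, LinearMap.zero_apply, smul_zero] at h4
          have h5 : x v = B (x v) a • a + (x v - B (x v) a • a) := by abel
          have h6 : x v - B (x v) a • a ∈ U := U.sub_mem hxvU (U.smul_mem _ ha)
          have h7 : B (x v - B (x v) a • a) a = 0 := by
            rw [map_sub, LinearMap.sub_apply, map_smul, LinearMap.smul_apply, haa, smul_eq_mul,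
              mul_one, sub_self]
          rw [h5, map_add, map_smul, hpowa, hpow _ n _ h6 h7] at h4
          have h8 : (-c - -1 * c) ^ n • a = (0 : X) ∨ n = 0 := by
            by_cases hn0 : n = 0
            · exact Or.inr hn0
            · left
              have h9 : -c - -1 * c = 0 := by ring
              rw [h9, zero_pow hn0, zero_smul]
          rcases h8 with h8 | h8
          · rw [h8, smul_zero, zero_add] at h4
            have h9 : (c - -1 * c) ^ n ≠ 0 := by
              refine pow_ne_zero n ?_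
              have h10 : c - -1 * c = 2 * c := by ring
              rw [h10]
              exact mul_ne_zero two_ne_zero hc
            have h10 := (smul_eq_zero.1 h4.symm).resolve_left h9
            exact sub_eq_zero.1 h10
          · subst h8
            have h9 : x = 0 := hn
            rw [h9]
            simp
        have h8 : x u = B u a • x a + x (u - B u a • a) := by
          rw [map_sub, map_smul]
          abel
        have h9 := hxu _ hu1 hu2
        have h10 : B (x (u - B u a • a)) a = -B u (x a) := by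
          have h11 := h.skew x hx _ hu1 a ha
          have h12 : B (u - B u a • a) (x a) = B u (x a) := by
            rw [map_sub, LinearMap.sub_apply, map_smul, LinearMap.smul_apply,
              h.symm a ha _ hxaU, hxa, smul_zero, sub_zero]
          rw [h12] at h11
          exact eq_neg_of_add_eq_zero_left h11
        rw [LinearMap.neg_apply, h8, h9, h10]
        module
  have hsymm : ∀ u v : U, BU B U u v = BU B U v u := fun u v => h.symm u u.2 v v.2
  refine full_of_refl (BU B U) (𝔥 := ind (lieT R χ) U) ?_ (ind_mono idl_le)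
    (fun y hy z hz => ind_brk h.st hy hz) (ind_irr h.irr h.stU) (a := ⟨a, ha⟩) ?_ ?_
  · rintro y ⟨x, hx, hxy⟩ u v
    rw [BU_apply, BU_apply, hxy, hxy]
    exact h.skew x hx u u.2 v v.2
  · rw [BU_apply, haa]
    exact one_ne_zero
  · rintro y ⟨x, hx, hxy⟩
    obtain ⟨z, hz, hzx⟩ := hP x hx
    refine ⟨z, hz, fun u => ?_⟩
    rw [wd_apply, BU_apply, BU_apply, Submodule.coe_sub, Submodule.coe_smul, Submodule.coe_smul,
      hxy, hzx u u.2]

end Pool.Agent.H86.T3
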