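import Mathlib
import Pool.Agent.H86.T3.Ind

/-!
# The case of an isolated eigenvalue
-/

set_option autoImplicit false

namespace Pool.Agent.H86.T3

open Module Pool.Agent.H204R3.SP Pool.Agent.H204R3.GP Pool.Agent.W522.U

variable {K : Type} [Field K] [CharZero K] {X : Type} [AddCommGroup X] [Module K X]
  [FiniteDimensional K X] {Γ : Type} [Group Γ] {R : Representation K Γ X} {χ : Γ →* K}
  {I : Type} {E : I → Submodule K X} {U : Submodule K X} {B : X →ₗ[K] X →ₗ[K] K}

omit [CharZero K] [FiniteDimensional K X] in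
theorem expand {n : ℕ} (b : Basis (Fin n) K U) {u : X} (hu : u ∈ U) :
    u = ∑ j, b.repr ⟨u, hu⟩ j • ((b j : U) : X) := by
  have h2 := congrArg Subtype.val (b.sum_repr ⟨u, hu⟩)
  rw [Submodule.coe_sum] at h2
  exact h2.symm

/-- Two vectors of `U` are equal if they have the same products with a basis. -/
theorem Good.ext_basis (h : Good R χ E U B) {n : ℕ} (b : Basis (Fin n) K U) {u v : X} (hu : u ∈ U)
    (hv : v ∈ U) (huv : ∀ j, B u (b j) = B v (b j)) : u = v := by
  rw [← sub_eq_zero]
  refine h.nondeg _ (U.sub_mem hu hv) fun w hw => ?_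
  have h1 := expand b hw
  rw [h1, map_sum]
  refine Finset.sum_eq_zero fun j _ => ?_
  rw [map_smul, map_sub, LinearMap.sub_apply, huv, sub_self, smul_zero]

theorem Good.self (h : Good R χ E U B) {x : End K X} (hx : x ∈ lieT R χ) {u : X} (hu : u ∈ U) :
    B (x u) u = 0 := by
  have h1 := h.skew x hx u hu u hu
  rw [h.symm u hu (x u) (h.stU x hx u hu)] at h1
  have h3 : (2 : K) * B (x u) u = 0 := by linear_combination h1
  exact (mul_eq_zero.1 h3).resolve_left two_ne_zero

/-- an operator of rank two -/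
theorem Good.rk2 (h : Good R χ E U B) {n : ℕ} (b : Basis (Fin n) K U) {x : End K X}
    (hx : x ∈ lieT R χ) {s t : Fin n} {e f : X} {α β : K} (he : e = α • (b s : X))
    (hf : f = β • (b t : X)) (hef : B e f = 1) (hst : ∀ j, j ≠ t → B (b s : X) (b j) = 0)
    (hij : ∀ i j, i ≠ j → i ≠ t → j ≠ t → B (x (b i)) (b j) = 0) :
    ∀ u ∈ U, (-x) u = B u (x f) • e - B u e • x f := by
  have heU : e ∈ U := by
    rw [he]
    exact U.smul_mem _ (b s).2
  have hfU : f ∈ U := by
    rw [hf]
    exact U.smul_mem _ (b t).2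
  have hxf := h.stU x hx f hfU
  have key : ∀ i, (-x) (b i : X) = B (b i) (x f) • e - B (b i) e • x f := by
    intro i
    refine h.ext_basis b (U.neg_mem (h.stU x hx _ (b i).2))
      (U.sub_mem (U.smul_mem _ heU) (U.smul_mem _ hxf)) fun j => ?_
    rw [LinearMap.neg_apply, map_neg, LinearMap.neg_apply, map_sub, LinearMap.sub_apply, map_smul,
      map_smul, LinearMap.smul_apply, LinearMap.smul_apply, smul_eq_mul, smul_eq_mul]
    have h0 : ∀ j, j ≠ t → B e (b j) = 0 := by
      intro j hj
      rw [he, map_smul, LinearMap.smul_apply, hst j hj, smul_zero]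
    have h0' : ∀ j, j ≠ t → B (b j : X) e = 0 := by
      intro j hj
      rw [h.symm _ (b j).2 _ heU, h0 j hj]
    have h1 : β * B e (b t) = 1 := by
      rw [← hef, hf, map_smul, smul_eq_mul]
    have h1' : β * B (b t : X) e = 1 := by
      rw [h.symm _ (b t).2 _ heU, h1]
    have h2 : ∀ v : X, B v (x f) = β * B v (x (b t)) := by
      intro v
      rw [hf, map_smul, map_smul, smul_eq_mul]
    have h3 : ∀ v : X, B (x f) v = β * B (x (b t)) v := by
      intro v
      rw [hf, map_smul, map_smul, LinearMap.smul_apply, smul_eq_mul]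
    have hsk := h.skew x hx (b i) (b i).2 (b j) (b j).2
    by_cases hi : i = t
    · subst hi
      by_cases hj : j = i
      · subst hj
        have h4 := h.self hx (b j).2
        have h5 : B (b j : X) (x (b j)) = 0 := by
          rw [h4, zero_add] at hsk
          exact hsk
        rw [h2, h3, h4, h5]
        ring
      · rw [h0 j hj, h3]
        linear_combination B (x (b i)) (b j) * h1'
    · by_cases hj : j = t
      · subst hj
        rw [h0' i hi, h2]
        linear_combination -hsk - B (b i : X) (x (b j)) * h1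
      · rw [h0 j hj, h0' i hi]
        by_cases hij' : i = j
        · subst hij'
          rw [h.self hx (b i).2]
          ring
        · rw [hij i j hij' hi hj]
          ring
  intro u hu
  have h1 := expand b hu
  let L : X →ₗ[K] X := (B.flip (x f)).smulRight e - (B.flip e).smulRight (x f)
  have hL : ∀ u, L u = B u (x f) • e - B u e • x f := fun u => rfl
  rw [← hL, h1, map_sum, map_sum]
  refine Finset.sum_congr rfl fun j _ => ?_
  rw [map_smul, map_smul, key j, hL]

section iso

variable {γ : Γ} {n : ℕ} (b : Basis (Fin n) K U) {a : Fin n → K}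
  (hb : ∀ k, R γ (b k : X) = a k • (b k : X))
include hb

omit [CharZero K] [FiniteDimensional K X] in
theorem eig_ne (k : Fin n) : a k ≠ 0 := by
  intro h
  have h1 := hb k
  rw [h, zero_smul] at h1
  exact Rne (R := R) γ (fun h2 => b.ne_zero k (Subtype.ext h2)) h1

omit [CharZero K] [FiniteDimensional K X] in
theorem eig_repr {u : X} (hu : u ∈ U) {s : K} {m : ℕ} (h : ((R γ - s • 1) ^ m : End K X) u = 0)
    {k : Fin n} (hk : b.repr ⟨u, hu⟩ k ≠ 0) : a k = s := by
  have hpow : ∀ k, ((R γ - s • 1) ^ m : End K X) (b k : X) = (a k - s) ^ m • (b k : X) := by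
    intro k
    clear h hk
    induction m with
    | zero => rw [pow_zero, pow_zero, one_smul]; rfl
    | succ m ih =>
      rw [pow_succ, Module.End.mul_apply, LinearMap.sub_apply, hb k, LinearMap.smul_apply,
        Module.End.one_apply, ← sub_smul, map_smul, ih, smul_smul, pow_succ, mul_comm]
  have h1 := expand b hu
  rw [h1, map_sum] at h
  have h2 : ∑ j, (b.repr ⟨u, hu⟩ j * (a j - s) ^ m) • b j = 0 := by
    apply Subtype.ext
    rw [Submodule.coe_sum, Submodule.coe_zero, ← h]
    refine Finset.sum_congr rfl fun j _ => ?_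
    rw [Submodule.coe_smul, map_smul, hpow, smul_smul]
  have h3 := Fintype.linearIndependent_iff.1 b.linearIndependent _ h2 k
  have h4 := (mul_eq_zero.1 h3).resolve_left hk
  exact sub_eq_zero.1 (by
    by_contra h5
    exact pow_ne_zero m h5 h4)

/-- the products of `x (b i)` for a generalized eigenvector `x` of the conjugation -/
theorem Good.hxB (h : Good R χ E U B) {μ : K}
    (hμ : ∀ u ∈ U, ∀ v ∈ U, B (R γ u) (R γ v) = μ * B u v) {κ : K} {m : ℕ} {x : End K X}
    (hx : x ∈ lieT R χ) (hm : (Dk R γ κ ^ m) x = 0) (i j : Fin n)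
    (hB : B (x (b i)) (b j) ≠ 0) : κ * a i * a j = μ := by
  have hxU := h.stU x hx _ (b i).2
  have h0 := gen_one (R := R) γ κ (eig_ne b hb i) (hb i) m x
  rw [hm, LinearMap.zero_apply, smul_zero] at h0
  have h1 := expand b hxU
  have h2 : ∃ k, b.repr ⟨x (b i), hxU⟩ k ≠ 0 ∧ B (b k : X) (b j) ≠ 0 := by
    by_contra hcon
    push Not at hcon
    apply hB
    rw [h1, map_sum, LinearMap.sum_apply]
    refine Finset.sum_eq_zero fun k _ => ?_
    rw [map_smul, LinearMap.smul_apply]
    by_cases hk : b.repr ⟨x (b i), hxU⟩ k = 0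
    · rw [hk, zero_smul]
    · rw [hcon k hk, smul_zero]
  obtain ⟨k, hk, hkj⟩ := h2
  have h3 := eig_repr b hb hxU h0.symm hk
  have h4 := hμ _ (b k).2 _ (b j).2
  rw [hb, hb, map_smul, map_smul, LinearMap.smul_apply, smul_eq_mul, smul_eq_mul] at h4
  have h5 : (a k * a j - μ) * B (b k : X) (b j) = 0 := by linear_combination h4
  have h6 := (mul_eq_zero.1 h5).resolve_right hkj
  rw [← h3]
  exact sub_eq_zero.1 h6

end iso

end Pool.Agent.H86.T3
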