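import Mathlib
import Pool.Agent.H86.T3.Isol

/-!
# The case of an isolated eigenvalue: the operators of rank two
-/

set_option autoImplicit false

namespace Pool.Agent.H86.T3

open Module Pool.Agent.H204R3.SP Pool.Agent.H204R3.GP Pool.Agent.W522.U

variable {K : Type} [Field K] [CharZero K] {X : Type} [AddCommGroup X] [Module K X]
  [FiniteDimensional K X] {Γ : Type} [Group Γ] {R : Representation K Γ X} {χ : Γ →* K}
  {I : Type} {E : I → Submodule K X} {U : Submodule K X} {B : X →ₗ[K] X →ₗ[K] K}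

section iso

variable {γ : Γ} {n : ℕ} (b : Basis (Fin n) K U) {a : Fin n → K}
  (hb : ∀ k, R γ (b k : X) = a k • (b k : X)) {μ : K}

omit [CharZero K] [FiniteDimensional K X] in
include hb in
theorem eig_pair (hμ : ∀ u ∈ U, ∀ v ∈ U, B (R γ u) (R γ v) = μ * B u v) {i j : Fin n}
    (hij : B (b i : X) (b j) ≠ 0) : a i * a j = μ := by
  have h4 := hμ _ (b i).2 _ (b j).2
  rw [hb, hb, map_smul, map_smul, LinearMap.smul_apply, smul_eq_mul, smul_eq_mul] at h4
  have h5 : (a i * a j - μ) * B (b i : X) (b j) = 0 := by linear_combination h4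
  exact sub_eq_zero.1 ((mul_eq_zero.1 h5).resolve_right hij)

include hb in
/-- the duality of the eigenvalues -/
theorem Good.dual (h : Good R χ E U B)
    (hμ : ∀ u ∈ U, ∀ v ∈ U, B (R γ u) (R γ v) = μ * B u v) :
    ∃ σ : Equiv.Perm (Fin n), ∀ i, a (σ i) * a i = μ := by
  classical
  let M : Matrix (Fin n) (Fin n) K := fun i j => B (b i : X) (b j)
  have hM : M.det ≠ 0 := by
    intro h0
    obtain ⟨v, hv, hv0⟩ := Matrix.exists_mulVec_eq_zero_iff.2 h0
    apply hv
    have h1 : (∑ j, v j • b j : U) = 0 := by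
      apply Subtype.ext
      refine h.ext_basis b (Subtype.mem _) U.zero_mem fun i => ?_
      rw [h.symm _ (Subtype.mem _) _ (b i).2, Submodule.coe_zero, map_zero, LinearMap.zero_apply,
        Submodule.coe_sum, map_sum]
      have h2 := congrFun hv0 i
      rw [Matrix.mulVec, dotProduct, Pi.zero_apply] at h2
      rw [← h2]
      refine Finset.sum_congr rfl fun j _ => ?_
      rw [Submodule.coe_smul, map_smul, smul_eq_mul, mul_comm]
    funext j
    exact Fintype.linearIndependent_iff.1 b.linearIndependent v h1 j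
  rw [Matrix.det_apply] at hM
  obtain ⟨σ, _, hσ⟩ := Finset.exists_ne_zero_of_sum_ne_zero hM
  refine ⟨σ, fun i => ?_⟩
  have h1 : ∏ i, M (σ i) i ≠ 0 := by
    intro h2
    exact hσ (by rw [h2, smul_zero])
  have h2 : M (σ i) i ≠ 0 := fun h3 => h1 (Finset.prod_eq_zero (Finset.mem_univ i) h3)
  exact eig_pair b hb hμ h2

omit [CharZero K] [FiniteDimensional K X] in
include hb in
/-- the image of an eigenvector under a generalized eigenvector of the conjugation -/
theorem Good.img (h : Good R χ E U B) {κ : K} {m : ℕ} {x : End K X}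
    (hx : x ∈ lieT R χ) (hm : (Dk R γ κ ^ m) x = 0) (i : Fin n) (k : Fin n)
    (hk : b.repr ⟨x (b i), h.stU x hx _ (b i).2⟩ k ≠ 0) : a k = κ * a i := by
  have h0 := gen_one (R := R) γ κ (eig_ne b hb i) (hb i) m x
  rw [hm, LinearMap.zero_apply, smul_zero] at h0
  exact eig_repr b hb _ h0.symm hk

include hb in
/-- The main lemma: `s`, `t` are dual simple indices. -/
theorem Good.main [IsAlgClosed K] (h : Good R χ E U B)
    (hμ : ∀ u ∈ U, ∀ v ∈ U, B (R γ u) (R γ v) = μ * B u v) {s t : Fin n}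
    (hs1 : ∀ k, a k = a s → k = s) (ht1 : ∀ k, a k = a t → k = t) (hμst : a s * a t = μ)
    {e f : X} {α β : K} (he : e = α • (b s : X)) (hf : f = β • (b t : X)) (hef : B e f = 1)
    (hNR : ∀ κ k, a k ≠ a s → a k ≠ a t → κ * a t = a k →
      ∀ j, ¬Tw R (fun _ => 1) U (E j) → NoRatio R γ κ (E j))
    (hiso : ∀ κ k i j, a k ≠ a s → a k ≠ a t → κ * a t = a k → i ≠ j → i ≠ t → j ≠ t →
      κ * a i * a j ≠ μ) {x : End K X} (hx : x ∈ lieT R χ) :
    ∃ z ∈ Idl R χ E U, ∀ u ∈ U, z u =
      B u (x f - B (x f) e • f) • e - B u e • (x f - B (x f) e • f) := by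
  have heU : e ∈ U := by
    rw [he]
    exact U.smul_mem _ (b s).2
  have hfU : f ∈ U := by
    rw [hf]
    exact U.smul_mem _ (b t).2
  have hα : α ≠ 0 := by
    rintro rfl
    rw [he, zero_smul, map_zero, LinearMap.zero_apply] at hef
    exact zero_ne_one hef
  have hβ : β ≠ 0 := by
    rintro rfl
    rw [hf, zero_smul, map_zero] at hef
    exact zero_ne_one hef
  have hfe : B f e = 1 := by rw [h.symm _ hfU _ heU, hef]
  let L : End K X →ₗ[K] X := (LinearMap.applyₗ f) - ((B.flip e) ∘ₗ (LinearMap.applyₗ f)).smulRight f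
  have hL : ∀ x : End K X, L x = x f - B (x f) e • f := fun x => rfl
  let P : Submodule K (End K X) :=
    { carrier := {x | ∃ z ∈ Idl R χ E U, ∀ u ∈ U, z u = B u (L x) • e - B u e • L x}
      zero_mem' := ⟨0, Submodule.zero_mem _, fun u _ => by simp⟩
      add_mem' := by
        rintro x y ⟨z, hz, h1⟩ ⟨w, hw, h2⟩
        refine ⟨z + w, Submodule.add_mem _ hz hw, fun u hu => ?_⟩
        rw [LinearMap.add_apply, h1 u hu, h2 u hu, map_add, map_add]
        module
      smul_mem' := by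
        rintro r x ⟨z, hz, h1⟩
        refine ⟨r • z, Submodule.smul_mem _ _ hz, fun u hu => ?_⟩
        rw [LinearMap.smul_apply, h1 u hu, map_smul, map_smul, smul_eq_mul]
        module }
  suffices hP : x ∈ P from hP
  refine decomp γ P (fun κ x m hx hm => ?_) hx
  by_cases hL0 : L x = 0
  · refine ⟨0, Submodule.zero_mem _, fun u _ => ?_⟩
    rw [hL0, map_zero, zero_smul, smul_zero, sub_zero, LinearMap.zero_apply]
  have hxt := h.stU x hx _ (b t).2
  have hxf : x f = β • x (b t) := by rw [hf, map_smul]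
  -- the coefficients of `x (b t)`
  have hc : ∀ k, b.repr ⟨x (b t), hxt⟩ k ≠ 0 → a k = κ * a t := fun k hk => h.img b hb hx hm t k hk
  have hex : ∃ k, b.repr ⟨x (b t), hxt⟩ k ≠ 0 := by
    by_contra hcon
    push Not at hcon
    apply hL0
    have h1 : x (b t) = 0 := by
      rw [expand b hxt]
      refine Finset.sum_eq_zero fun k _ => ?_
      rw [hcon k, zero_smul]
    rw [hL, hxf, h1, smul_zero, map_zero, LinearMap.zero_apply, zero_smul, sub_zero]
  obtain ⟨k, hk⟩ := hex
  have hak := hc k hk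
  have h1 : a k ≠ a s := by
    intro h1
    apply hL0
    have h2 : ∀ l, l ≠ s → b.repr ⟨x (b t), hxt⟩ l = 0 := by
      intro l hl
      by_contra h3
      apply hl
      apply hs1
      rw [hc l h3, ← hak, h1]
    have h3 : x (b t) = b.repr ⟨x (b t), hxt⟩ s • (b s : X) := by
      conv_lhs => rw [expand b hxt]
      rw [Finset.sum_eq_single s]
      · intro l _ hl
        rw [h2 l hl, zero_smul]
      · intro h4
        exact absurd (Finset.mem_univ _) h4
    have h4 : ∃ r : K, x f = r • e := by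
      obtain ⟨r', hr'⟩ : ∃ r' : K, x (b t) = r' • (b s : X) := ⟨_, h3⟩
      refine ⟨β * r' * α⁻¹, ?_⟩
      rw [hxf, hr', he, smul_smul, smul_smul, mul_assoc _ α⁻¹ α, inv_mul_cancel₀ hα, mul_one]
    obtain ⟨r, hr⟩ := h4
    have h5 := h.self hx hfU
    rw [hr, map_smul, LinearMap.smul_apply, hef, smul_eq_mul, mul_one] at h5
    rw [hL, hr, h5, zero_smul, map_zero, LinearMap.zero_apply, zero_smul, sub_zero]
  have h2 : a k ≠ a t := by
    intro h1
    apply hL0
    have h2 : ∀ l, l ≠ t → b.repr ⟨x (b t), hxt⟩ l = 0 := by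
      intro l hl
      by_contra h3
      apply hl
      apply ht1
      rw [hc l h3, ← hak, h1]
    have h3 : x (b t) = b.repr ⟨x (b t), hxt⟩ t • (b t : X) := by
      conv_lhs => rw [expand b hxt]
      rw [Finset.sum_eq_single t]
      · intro l _ hl
        rw [h2 l hl, zero_smul]
      · intro h4
        exact absurd (Finset.mem_univ _) h4
    have h4 : ∃ r : K, x f = r • f := by
      obtain ⟨r', hr'⟩ : ∃ r' : K, x (b t) = r' • (b t : X) := ⟨_, h3⟩
      refine ⟨r', ?_⟩
      rw [hxf, hr', hf, smul_smul, smul_smul, mul_comm]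
    obtain ⟨r, hr⟩ := h4
    rw [hL, hr, map_smul, LinearMap.smul_apply, hfe, smul_eq_mul, mul_one, sub_self]
  have hij := fun i j hij hit hjt (h3 : B (x (b i)) (b j) ≠ 0) =>
    hiso κ k i j h1 h2 hak.symm hij hit hjt (h.hxB b hb hμ hx hm i j h3)
  have h4 : B (x f) e = 0 := by
    by_contra h5
    rw [hxf, he, map_smul, map_smul, LinearMap.smul_apply, smul_eq_mul, smul_eq_mul] at h5
    have h6 : B (x (b t)) (b s) ≠ 0 := fun h6 => h5 (by rw [h6, mul_zero, mul_zero])
    have h7 := h.hxB b hb hμ hx hm t s h6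
    rw [← hak, ← hμst, mul_comm (a s)] at h7
    exact h2 (mul_right_cancel₀ (eig_ne b hb s) h7)
  have h5 := h.rk2 b hx he hf hef (fun j hj => by
    by_contra h6
    apply hj
    apply ht1
    have h7 := eig_pair b hb hμ h6
    rw [← hμst] at h7
    exact mul_left_cancel₀ (eig_ne b hb s) h7) (fun i j h6 h7 h8 => by
      by_contra h9
      exact hij i j h6 h7 h8 h9)
  refine ⟨-x, Submodule.neg_mem _ ⟨hx, fun j hj u hu => ?_⟩, fun u hu => ?_⟩
  · exact gen_zero (hNR κ k h1 h2 hak.symm j hj) (h.st j) m x hx hm u hu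
  · rw [h5 u hu, hL, h4, zero_smul, sub_zero]

/-- The case of an isolated eigenvalue. -/
theorem Good.isol [IsAlgClosed K] (h : Good R χ E U B)
    (hμ : ∀ u ∈ U, ∀ v ∈ U, B (R γ u) (R γ v) = μ * B u v)
    (hb : ∀ k, R γ (b k : X) = a k • (b k : X)) {k₀ : Fin n} (h1 : ∀ k, a k = a k₀ → k = k₀)
    (h2 : a k₀ * a k₀ ≠ μ)
    (h3 : ∀ p q k, p ≠ q → k ≠ k₀ → a k₀ * a p * a q * a k = μ * μ →
      a k₀ * a p = μ ∨ a k₀ * a q = μ ∨ a k₀ * a k = μ)
    (h4 : ∀ j, ¬Tw R (fun _ => 1) U (E j) → ∀ k, a k ≠ a k₀ → a k₀ * a k ≠ μ →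
      NoRatio R γ (a k₀ / a k) (E j) ∧ NoRatio R γ (a k / a k₀) (E j)) :
    ∀ p q : U, wd (BU B U) p q ∈ ind (Idl R χ E U) U := by
  obtain ⟨σ, hσ⟩ := h.dual b hb hμ
  have hne := eig_ne b hb
  have hμ0 : μ ≠ 0 := by
    rw [← hσ k₀]
    exact mul_ne_zero (hne _) (hne _)
  obtain ⟨k₁, hk₁⟩ : ∃ k₁, σ k₁ = k₀ := ⟨σ.symm k₀, σ.apply_symm_apply k₀⟩
  have h01 : a k₀ * a k₁ = μ := by rw [← hk₁, hσ]
  -- uniqueness of `k₁`
  have hu : ∀ k, a k₀ * a k = μ → k = k₁ := by
    intro k hk
    apply σ.injective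
    rw [hk₁]
    apply h1
    have h5 : a (σ k) * a k = a k₀ * a k := by rw [hσ, hk]
    exact mul_right_cancel₀ (hne k) h5
  have ht1 : ∀ k, a k = a k₁ → k = k₁ := by
    intro k hk
    apply hu
    rw [hk, h01]
  have hk01 : k₀ ≠ k₁ := by
    intro h5
    rw [← h5] at h01
    exact h2 h01
  have hB01 : B (b k₀ : X) (b k₁) ≠ 0 := by
    intro h5
    apply b.ne_zero k₀
    apply Subtype.ext
    refine h.ext_basis b (b k₀).2 U.zero_mem fun j => ?_
    rw [Submodule.coe_zero, map_zero, LinearMap.zero_apply]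
    by_contra h6
    have h7 := hu j (eig_pair b hb hμ h6)
    rw [h7] at h6
    exact h6 h5
  have hB00 : B (b k₀ : X) (b k₀) = 0 := by
    by_contra h5
    exact h2 (eig_pair b hb hμ h5)
  have hB11 : B (b k₁ : X) (b k₁) = 0 := by
    by_contra h5
    have h6 := eig_pair b hb hμ h5
    rw [← h01] at h6
    exact hk01 (ht1 _ (mul_right_cancel₀ (hne k₁) h6).symm)
  -- the hyperbolic pair
  obtain ⟨e, he⟩ : ∃ e : X, e = (1 : K) • (b k₀ : X) := ⟨_, rfl⟩
  obtain ⟨f, hf⟩ : ∃ f : X, f = (B (b k₀ : X) (b k₁))⁻¹ • (b k₁ : X) := ⟨_, rfl⟩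
  have heU : e ∈ U := by
    rw [he]
    exact U.smul_mem _ (b k₀).2
  have hfU : f ∈ U := by
    rw [hf]
    exact U.smul_mem _ (b k₁).2
  have hef : B e f = 1 := by
    rw [he, hf, map_smul, map_smul, LinearMap.smul_apply, smul_eq_mul, smul_eq_mul, one_mul,
      inv_mul_cancel₀ hB01]
  have hfe : B f e = 1 := by rw [h.symm _ hfU _ heU, hef]
  have hee : B e e = 0 := by
    rw [he, map_smul, map_smul, LinearMap.smul_apply, hB00, smul_zero, smul_zero]
  have hff : B f f = 0 := by
    rw [hf, map_smul, map_smul, LinearMap.smul_apply, hB11, smul_zero, smul_zero]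
  have key1 : ∀ x ∈ lieT R χ, ∃ z ∈ Idl R χ E U, ∀ u ∈ U, z u =
      B u (x f - B (x f) e • f) • e - B u e • (x f - B (x f) e • f) := by
    intro x hx
    refine h.main b hb hμ h1 ht1 h01 he hf hef (fun κ k h5 h6 h7 j hj => ?_)
      (fun κ k i j h5 h6 h7 hij hi hj h8 => ?_) hx
    · -- `κ = a k / a k₁ = a k₀ / a (σ k)`
      have h8 : κ = a k₀ / a (σ k) := by
        rw [eq_div_iff (hne _)]
        apply mul_right_cancel₀ (hne k₁)
        calc κ * a (σ k) * a k₁ = (κ * a k₁) * a (σ k) := by ring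
          _ = a (σ k) * a k := by rw [h7, mul_comm]
          _ = a k₀ * a k₁ := by rw [hσ, h01]
      rw [h8]
      refine (h4 j hj (σ k) (fun h9 => ?_) fun h9 => ?_).1
      · have h10 := h1 _ h9
        rw [← hk₁] at h10
        exact h6 (by rw [σ.injective h10])
      · have h10 : a k₀ * a (σ k) = a k * a (σ k) := by rw [h9, mul_comm (a k), hσ]
        exact h5 (mul_right_cancel₀ (hne _) h10).symm
    · have h9 : a k₀ * a i * a j * a k = μ * μ := by
        rw [← h7, ← h01]
        have h10 : κ * a i * a j = a k₀ * a k₁ := by rw [h8, h01]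
        linear_combination (a k₀ * a k₁) * h10
      rcases h3 i j k hij (fun h10 => h5 (by rw [h10])) h9 with h10 | h10 | h10
      · exact hi (hu _ h10)
      · exact hj (hu _ h10)
      · exact h6 (by rw [hu _ h10])
  have key2 : ∀ x ∈ lieT R χ, ∃ z ∈ Idl R χ E U, ∀ u ∈ U, z u =
      B u (x e - B (x e) f • e) • f - B u f • (x e - B (x e) f • e) := by
    intro x hx
    refine h.main b hb hμ ht1 h1 (by rw [mul_comm, h01]) hf he hfe
      (fun κ k h5 h6 h7 j hj => ?_) (fun κ k i j h5 h6 h7 hij hi hj h8 => ?_) hx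
    · have h8 : κ = a k / a k₀ := by
        rw [eq_div_iff (hne _), h7]
      rw [h8]
      exact (h4 j hj k h6 fun h9 => h5 (by rw [hu _ h9])).2
    · have h9 : a k₀ * a (σ i) * a (σ j) * a (σ k) = μ * μ := by
        have e1 := hσ i
        have e2 := hσ j
        have e3 := hσ k
        have h10 : (a i * a j * a k) * (a k₀ * a (σ i) * a (σ j) * a (σ k)) =
            (a i * a j * a k) * (μ * μ) := by
          calc (a i * a j * a k) * (a k₀ * a (σ i) * a (σ j) * a (σ k))
              = a k₀ * ((a (σ i) * a i) * (a (σ j) * a j) * (a (σ k) * a k)) := by ring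
            _ = a k₀ * (μ * μ * μ) := by rw [e1, e2, e3]
            _ = (a k₀ * μ) * (μ * μ) := by ring
            _ = (a i * a j * a k) * (μ * μ) := by
              rw [← h7, ← h8]
              ring
        exact mul_left_cancel₀ (mul_ne_zero (mul_ne_zero (hne _) (hne _)) (hne _)) h10
      have hcan : ∀ l, a k₀ * a (σ l) = μ → a l = a k₀ := by
        intro l hl
        have h11 : a l * a (σ l) = a k₀ * a (σ l) := by rw [hl, mul_comm, hσ]
        exact mul_right_cancel₀ (hne _) h11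
      have hk0 : σ k ≠ k₀ := by
        intro h10
        rw [← hk₁] at h10
        exact h5 (by rw [σ.injective h10])
      rcases h3 (σ i) (σ j) (σ k) (fun h10 => hij (σ.injective h10)) hk0 h9 with
        h10 | h10 | h10
      · exact hi (h1 _ (hcan _ h10))
      · exact hj (h1 _ (hcan _ h10))
      · exact h6 (hcan _ h10)
  refine full_of_hyp (BU B U) (fun u v => h.symm u u.2 v v.2) (𝔥 := ind (lieT R χ) U) ?_
    (ind_mono idl_le) (fun y hy z hz => ind_brk h.st hy hz) (ind_irr h.irr h.stU)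
    (e := ⟨e, heU⟩) (f := ⟨f, hfU⟩) hee hff hef ?_ ?_
  · rintro y ⟨x, hx, hxy⟩ u v
    rw [BU_apply, BU_apply, hxy, hxy]
    exact h.skew x hx u u.2 v v.2
  · rintro y ⟨x, hx, hxy⟩
    obtain ⟨z, hz, hzx⟩ := key1 x hx
    refine ⟨z, hz, fun u => ?_⟩
    rw [hzx u u.2]
    simp only [wd_apply, BU_apply, Submodule.coe_sub, Submodule.coe_smul, hxy]
  · rintro y ⟨x, hx, hxy⟩
    obtain ⟨z, hz, hzx⟩ := key2 x hx
    refine ⟨z, hz, fun u => ?_⟩
    rw [hzx u u.2]
    simp only [wd_apply, BU_apply, Submodule.coe_sub, Submodule.coe_smul, hxy]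

end iso

end Pool.Agent.H86.T3
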