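import Mathlib
import Pool.Agent.H86.T3.Isol2

/-!
# From the parts to the whole space
-/

set_option autoImplicit false

namespace Pool.Agent.H86.T3

open Module Pool.Agent.H204R3.SP Pool.Agent.H204R3.GP Pool.Agent.W522.U

variable {K : Type} [Field K] [CharZero K] {X : Type} [AddCommGroup X] [Module K X]
  [FiniteDimensional K X] {Γ : Type} [Group Γ] {R : Representation K Γ X} {χ : Γ →* K}
  {I : Type} {E : I → Submodule K X}

variable (ω : X →ₗ[K] X →ₗ[K] K) (hnd : ∀ u, (∀ v, ω u v = 0) → u = 0)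
  (hωR : ∀ g u v, ω (R g u) (R g v) = χ g * ω u v) (hss : HasProj R) (hcent : Cent R χ)

include hnd hωR hss hcent in
/-- The assumptions `Good` hold for an orthogonal strongly irreducible subspace. -/
theorem good_of (hE : ∀ i, SI R (E i)) {U : Submodule K X} (hU : SI R U) {B : X →ₗ[K] X →ₗ[K] K}
    (hB : OrthForm R χ U B) : Good R χ E U B := by
  obtain ⟨h1, h2, Δ, hΔ, h3⟩ := hB
  exact
    { symm := h1
      nondeg := du_left hU hU.2.1 hΔ h2 h3
      skew := fun x hx => Pool.Agent.TH118.CR.lieT_skew ω hnd hωR hss hU.2.1 hΔ B h3 hx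
      stU := fun x hx => Pool.Agent.TH118.CR.lieT_stable ω hnd hωR hss hU.2.1 hx
      st := fun j x hx => Pool.Agent.TH118.CR.lieT_stable ω hnd hωR hss (hE j).2.1 hx
      irr := fun W hW hWL => irr ω hnd hωR hss hcent hU hW hWL }

/-- The operator `Y` is skew for `ω` and commutes with the operators which commute with a subgroup
of finite index. -/
def CSkew (R : Representation K Γ X) (ω : X →ₗ[K] X →ₗ[K] K) (Y : End K X) : Prop :=
  (∀ u v, ω (Y u) v + ω u (Y v) = 0) ∧
    ∀ Z : End K X, (∃ Δ : Subgroup Γ, Δ.FiniteIndex ∧ ∀ g ∈ Δ, ∀ x, Z (R g x) = R g (Z x)) →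
      ∀ x, Y (Z x) = Z (Y x)

variable {ω}

omit [CharZero K] [FiniteDimensional K X] in
include hss in
theorem CSkew.stable {Y : End K X} (hY : CSkew R ω Y) {U : Submodule K X} (hU : Pot R U) :
    ∀ u ∈ U, Y u ∈ U := by
  obtain ⟨Δ, hΔ, hst⟩ := hU
  obtain ⟨p, hp1, hp2, hp3⟩ := hss Δ hΔ U hst
  intro u hu
  have h1 := hY.2 p ⟨Δ, hΔ, hp3⟩ u
  rw [hp2 u hu] at h1
  rw [h1]
  exact hp1 _

omit [CharZero K] in
include hnd hωR hss in
theorem CSkew.skew {Y : End K X} (hY : CSkew R ω Y) {U : Submodule K X}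
    (hU : Pot R U) {Δ : Subgroup Γ} (hΔ : Δ.FiniteIndex) (B : X →ₗ[K] X →ₗ[K] K)
    (hB : ∀ g ∈ Δ, ∀ u ∈ U, ∀ v ∈ U, B (R g u) (R g v) = χ g * B u v) :
    ∀ u ∈ U, ∀ v ∈ U, B (Y u) v + B u (Y v) = 0 := by
  have hYU := hY.stable hss hU
  obtain ⟨Δ', hΔ', hst⟩ := hU
  obtain ⟨p, hp1, hp2, hp3⟩ := hss (Δ ⊓ Δ') inferInstance U (fun g hg => hst g hg.2)
  -- the form `ω` as an isomorphism to the dual
  have hinj : Function.Injective ω := by
    rw [← LinearMap.ker_eq_bot, LinearMap.ker_eq_bot']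
    intro u hu
    exact hnd u fun v => by rw [hu, LinearMap.zero_apply]
  let e : X ≃ₗ[K] Dual K X := LinearEquiv.ofInjectiveOfFinrankEq ω hinj
    (Subspace.dual_finrank_eq (K := K) (V := X)).symm
  have he : ∀ f v, ω (e.symm f) v = f v := by
    intro f v
    have h1 : e (e.symm f) = f := e.apply_symm_apply f
    have h2 : e (e.symm f) = ω (e.symm f) := rfl
    rw [← h2, h1]
  let Z : End K X := e.symm.toLinearMap ∘ₗ (B.compl₁₂ p p)
  have hZ : ∀ u v, ω (Z u) v = B (p u) (p v) := fun u v => he _ v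
  have hZc : ∀ g ∈ Δ ⊓ Δ', ∀ x, Z (R g x) = R g (Z x) := by
    intro g hg x
    rw [← sub_eq_zero]
    refine hnd _ fun v => ?_
    rw [map_sub, LinearMap.sub_apply, sub_eq_zero]
    have h1 : v = R g (R g⁻¹ v) := (Rinv' g v).symm
    rw [h1, hZ, hωR, hp3 g hg, hp3 g hg, hB g hg.1 _ (hp1 _) _ (hp1 _), hZ]
  have hYZ := hY.2 Z ⟨_, inferInstance, hZc⟩
  intro u hu v hv
  have h1 := hY.1 (Z u) v
  rw [hYZ, hZ, hZ, hp2 u hu, hp2 v hv, hp2 _ (hYU u hu), hp2 _ (hYU v hv)] at h1
  exact h1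

include hnd hωR hss hcent in
/-- **The operators which are skew and commute with the commutant lie in the Lie algebra**, if every
part is orthogonal and the operators of rank two of every part lie in its ideal. -/
theorem glue (hE : ∀ i, SI R (E i)) (hsup : (⨆ i, E i) = ⊤)
    (hfull : ∀ i, ∃ B : X →ₗ[K] X →ₗ[K] K, OrthForm R χ (E i) B ∧
      ∀ p q : E i, wd (BU B (E i)) p q ∈ ind (Idl R χ E (E i)) (E i))
    {Y : End K X} (hY : CSkew R ω Y) : Y ∈ lieT R χ := by
  classical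
  have key : ∀ F : Finset I, ∃ Z ∈ lieT R χ, (∀ i ∈ F, ∀ u ∈ E i, Z u = Y u) ∧
      ∀ j, (∀ i ∈ F, ¬Tw R (fun _ => 1) (E i) (E j)) → ∀ u ∈ E j, Z u = 0 := by
    intro F
    induction F using Finset.induction_on with
    | empty =>
      refine ⟨0, Submodule.zero_mem _, fun i hi => ?_, fun j _ u _ => rfl⟩
      exact absurd hi (Finset.notMem_empty i)
    | insert i F hi ih =>
      obtain ⟨Z, hZ, hZF, hZ0⟩ := ih
      by_cases hex : ∃ i' ∈ F, Tw R (fun _ => 1) (E i') (E i)
      · obtain ⟨i', hi', hT⟩ := hex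
        obtain ⟨P, hP1, hP2, hP3⟩ := iso_op (hE i') (hE i) ω hnd hωR hss hT
        refine ⟨Z, hZ, fun l hl u hu => ?_, fun j hj => hZ0 j fun l hl =>
          hj l (Finset.mem_insert_of_mem hl)⟩
        rcases Finset.mem_insert.1 hl with h1 | h1
        · subst h1
          rw [← hP1] at hu
          obtain ⟨w, hw, rfl⟩ := hu
          rw [hP3 Z hZ, hY.2 P hP2, hZF i' hi' w hw]
        · exact hZF l h1 u hu
      · push Not at hex
        obtain ⟨B, hB, hw⟩ := hfull i
        have hG : Good R χ E (E i) B := good_of ω hnd hωR hss hcent hE (hE i) hB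
        obtain ⟨h1, h2, Δ, hΔ, h3⟩ := hB
        obtain ⟨z, hz, hzY⟩ := hG.full hw Y (hY.stable hss (hE i).2.1)
          (hY.skew hnd hωR hss (hE i).2.1 hΔ B h3)
        refine ⟨Z + z, (lieT R χ).add_mem hZ hz.1, fun l hl u hu => ?_, fun j hj u hu => ?_⟩
        · rcases Finset.mem_insert.1 hl with h4 | h4
          · subst h4
            rw [LinearMap.add_apply, hZ0 l hex u hu, zero_add, hzY u hu]
          · rw [LinearMap.add_apply, hZF l h4 u hu,
              hz.2 l (fun h5 => hex l h4 (h5.symm1 (hE i) (hE l))) u hu, add_zero]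
        · rw [LinearMap.add_apply, hZ0 j (fun l hl => hj l (Finset.mem_insert_of_mem hl)) u hu,
            hz.2 j (hj i (Finset.mem_insert_self i F)) u hu, add_zero]
  have hcpt : IsCompactElement (⊤ : Submodule K X) :=
    (Submodule.fg_iff_compact ⊤).1 (Module.finite_def.1 inferInstance)
  obtain ⟨F, hF⟩ := CompleteLattice.IsCompactElement.exists_finset_of_le_iSup
    (Submodule K X) hcpt E hsup.ge
  obtain ⟨Z, hZ, hZF, -⟩ := key F
  have hZY : Z = Y := by
    rw [← sub_eq_zero]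
    have h1 : (⊤ : Submodule K X) ≤ LinearMap.ker (Z - Y) := by
      refine hF.trans (iSup₂_le fun i hi u hu => ?_)
      rw [LinearMap.mem_ker, LinearMap.sub_apply, hZF i hi u hu, sub_self]
    exact LinearMap.ext fun x => LinearMap.mem_ker.1 (h1 (Submodule.mem_top (x := x)))
  rw [← hZY]
  exact hZ

end Pool.Agent.H86.T3
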