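import Mathlib
import Pool.Agent.H86.T3.Glue

/-!
# The commutant of the Lie algebra of the Tate classes
-/

set_option autoImplicit false

namespace Pool.Agent.H86.T3

open Module TensorProduct Pool.Agent.H204R3.SP Pool.Agent.H204R3.GP Pool.Agent.W522.U
open Pool.Agent.W5h27.UN Pool.Agent.W5h23.Four Pool.Agent.Y114.RM

theorem cent (ℓ : ℕ) [Fact ℓ.Prime] {V : Type} [AddCommGroup V] [Module ℚ_[ℓ] V]
    [FiniteDimensional ℚ_[ℓ] V] {Γ : Type} [Group Γ] [TopologicalSpace Γ] [IsTopologicalGroup Γ]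
    [CompactSpace Γ] (ρ : Representation ℚ_[ℓ] Γ V)
    (hcont : ∀ (f : Dual ℚ_[ℓ] V) (x : V), Continuous fun γ => f (ρ γ x)) (χ : Γ →* ℚ_[ℓ])
    (ω : V →ₗ[ℚ_[ℓ]] V →ₗ[ℚ_[ℓ]] ℚ_[ℓ]) (hl : ∀ u, (∀ v, ω u v = 0) → u = 0)
    (hω : ∀ s u v, ω (ρ s u) (ρ s v) = χ s * ω u v)
    (hss : FiniteIndexSemisimple ρ) :
    Cent (bcr ρ (AlgebraicClosure ℚ_[ℓ])) (bcc χ (AlgebraicClosure ℚ_[ℓ])) := by
  classical
  obtain ⟨hLie, hnd, hAd, hord⟩ := tateLie_props ω hl hω hss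
  let C : Submodule ℚ_[ℓ] (End ℚ_[ℓ] V) :=
    { carrier := {Z | ∀ Y ∈ TateLie ρ χ ω, Y * Z = Z * Y}
      add_mem' := fun {a b} ha hb Y hY => by rw [mul_add, add_mul, ha Y hY, hb Y hY]
      zero_mem' := fun Y _ => by rw [mul_zero, zero_mul]
      smul_mem' := fun c a ha Y hY => by rw [mul_smul_comm, smul_mul_assoc, ha Y hY] }
  have hinv : ∀ γ : Γ, ρ γ * ρ γ⁻¹ = 1 := fun γ => by rw [← map_mul, mul_inv_cancel, map_one]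
  have hA : ∀ γ : Γ, ∀ Z ∈ C, AdE (ρ γ) (ρ γ⁻¹) Z ∈ C := by
    intro γ Z hZ Y hY
    have h1 : AdE (ρ γ⁻¹) (ρ γ) Y ∈ TateLie ρ χ ω := by
      have h3 := hAd γ⁻¹ Y hY
      rwa [inv_inv] at h3
    have h3 : AdE (ρ γ⁻¹) (ρ γ) Y * Z = Z * AdE (ρ γ⁻¹) (ρ γ) Y := hZ _ h1
    rw [AdE_apply] at h3 ⊢
    calc Y * (ρ γ * (Z * ρ γ⁻¹)) = (ρ γ * ρ γ⁻¹) * (Y * (ρ γ * (Z * ρ γ⁻¹))) := by
          rw [hinv, one_mul]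
      _ = ρ γ * (ρ γ⁻¹ * (Y * ρ γ) * Z) * ρ γ⁻¹ := by simp only [mul_assoc]
      _ = ρ γ * (Z * (ρ γ⁻¹ * (Y * ρ γ))) * ρ γ⁻¹ := by rw [h3]
      _ = ρ γ * (Z * ρ γ⁻¹) * Y * (ρ γ * ρ γ⁻¹) := by simp only [mul_assoc]
      _ = ρ γ * (Z * ρ γ⁻¹) * Y := by rw [hinv, mul_one]
  obtain ⟨Δ, hΔ, hΔC⟩ := exists_commuting ρ hcont C hA (fun γ => by
    obtain ⟨M, hM, h⟩ := hord γ
    exact ⟨M, hM, fun Z hZ => h Z hZ⟩)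
  have hLT : ∀ Y ∈ TateLie ρ χ ω, Y.baseChange (AlgebraicClosure ℚ_[ℓ]) ∈
      lieT (bcr ρ (AlgebraicClosure ℚ_[ℓ])) (bcc χ (AlgebraicClosure ℚ_[ℓ])) := fun Y hY =>
    NS.lieT_desc ρ χ (fun m φ hφ v => by
      have h1 := hY.2 m φ hφ v
      rwa [mul_zero, zero_mul] at h1)
  intro Z' hZ'
  exact ⟨Δ, hΔ, fun g hg x => NS.comm_desc (TateLie ρ χ ω : Set (End ℚ_[ℓ] V)) (ρ g)
    (fun Z hZ => hΔC g hg Z hZ) Z' (fun Y hY x => (hZ' _ (hLT Y hY) x).symm) x⟩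

end Pool.Agent.H86.T3
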