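import Mathlib
import Pool.Agent.H86.T3.CentT

/-!
# The Mumford-Tate conjecture when all parts are orthogonal
-/

set_option autoImplicit false

namespace Pool.Agent.H86.T3

open Module TensorProduct Pool.Agent.H204R3.SP Pool.Agent.H204R3.GP Pool.Agent.W522.U
open Pool.Agent.W5h27.UN Pool.Agent.W5h23.Four Pool.Agent.Y114.RM Pool.Agent.TH118.MT

theorem bcb_skew_op {k K : Type} [Field k] [Field K] [Algebra k K] {V : Type} [AddCommGroup V]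
    [Module k V] (ω : V →ₗ[k] V →ₗ[k] k) {Y : End k V} (hY : ∀ u v, ω (Y u) v + ω u (Y v) = 0)
    (u v : K ⊗[k] V) : bcb K ω (Y.baseChange K u) v + bcb K ω u (Y.baseChange K v) = 0 := by
  induction u with
  | zero => simp only [map_zero, LinearMap.zero_apply, add_zero]
  | add u u' hu hu' =>
    rw [map_add, map_add, map_add, LinearMap.add_apply, LinearMap.add_apply]
    linear_combination hu + hu'
  | tmul a u =>
    induction v with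
    | zero => simp only [map_zero, add_zero]
    | add v v' hv hv' =>
      rw [map_add, map_add, map_add]
      linear_combination hv + hv'
    | tmul c v =>
      rw [LinearMap.baseChange_tmul, LinearMap.baseChange_tmul, bcb_tmul, bcb_tmul, ← add_smul, hY,
        zero_smul]

theorem mt_of_lie (ℓ : ℕ) [Fact ℓ.Prime]
    {W T : Type} [AddCommGroup W] [Module ℚ W] [FiniteDimensional ℚ W] [AddCommGroup T] [Module ℂ T]
    {per : W →+ T} (e : ℝ ⊗[ℚ] W ≃ₗ[ℝ] T) (he : ∀ w, e ((1 : ℝ) ⊗ₜ[ℚ] w) = per w)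
    {ω₀ : W →ₗ[ℚ] W →ₗ[ℚ] ℚ} (hω₀ : IsHodgeBilinear per ω₀)
    {Γ : Type} [Group Γ]
    {ρ : Representation ℚ_[ℓ] Γ (ℚ_[ℓ] ⊗[ℚ] W)}
    {χ : Γ →* ℚ_[ℓ]}
    (hl1 : ∀ u, (∀ v, bcb ℚ_[ℓ] ω₀ u v = 0) → u = 0)
    (hF : FaltingsEnd per (incl ℚ_[ℓ] W) ρ)
    (hfull : ∀ Y : End (AlgebraicClosure ℚ_[ℓ])
      (AlgebraicClosure ℚ_[ℓ] ⊗[ℚ_[ℓ]] (ℚ_[ℓ] ⊗[ℚ] W)),
      CSkew (bcr ρ (AlgebraicClosure ℚ_[ℓ])) (bcb (AlgebraicClosure ℚ_[ℓ]) (bcb ℚ_[ℓ] ω₀)) Y →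
      Y ∈ lieT (bcr ρ (AlgebraicClosure ℚ_[ℓ])) (bcc χ (AlgebraicClosure ℚ_[ℓ]))) :
    MumfordTate per (incl ℚ_[ℓ] W) ρ χ := by
  classical
  intro m φ hφ
  refine mem_hodgeSpan_of_killed e he φ fun X μ hX v => ?_
  obtain ⟨X', hX'⟩ : ∃ X' : End ℚ_[ℓ] (ℚ_[ℓ] ⊗[ℚ] W), X' = X - (μ / 2) • 1 := ⟨_, rfl⟩
  have hXe : ∀ x, X x = X' x + (μ / 2) • x := by
    intro x
    rw [hX', LinearMap.sub_apply, LinearMap.smul_apply, Module.End.one_apply, sub_add_cancel]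
  have hsk : ∀ x y, bcb ℚ_[ℓ] ω₀ (X' x) y + bcb ℚ_[ℓ] ω₀ x (X' y) = 0 := by
    intro x y
    have h1 := lieMT_bil hX hω₀ x y
    rw [hXe, hXe, map_add, map_add, LinearMap.add_apply, map_smul, map_smul, LinearMap.smul_apply,
      smul_eq_mul] at h1
    linear_combination h1
  have hcm : ∀ Z : End ℚ_[ℓ] (ℚ_[ℓ] ⊗[ℚ] W), (∃ Δ : Subgroup Γ, Δ.FiniteIndex ∧
      ∀ g ∈ Δ, ∀ x, Z (ρ g x) = ρ g (Z x)) → X' * Z = Z * X' := by
    intro Z hZ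
    have h1 := lieMT_comm_span hω₀ hl1 hX (hF Z hZ)
    rw [hX', sub_mul, mul_sub, h1, smul_mul_assoc, mul_smul_comm, one_mul, mul_one]
  have hC : CSkew (bcr ρ (AlgebraicClosure ℚ_[ℓ]))
      (bcb (AlgebraicClosure ℚ_[ℓ]) (bcb ℚ_[ℓ] ω₀)) (X'.baseChange (AlgebraicClosure ℚ_[ℓ])) := by
    refine ⟨fun u v => bcb_skew_op _ hsk u v, ?_⟩
    rintro Z ⟨Δ, hΔ, hZ⟩ x
    have h1 := NS.comm_desc (K := AlgebraicClosure ℚ_[ℓ]) {Y | ∃ g ∈ Δ, Y = ρ g} X'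
      (fun Z' hZ' => hcm Z' ⟨Δ, hΔ, fun g hg x => by
        have h2 := congrArg (fun F : End ℚ_[ℓ] (ℚ_[ℓ] ⊗[ℚ] W) => F x) (hZ' (ρ g) ⟨g, hg, rfl⟩)
        exact h2.symm⟩) Z (by
        rintro _ ⟨g, hg, rfl⟩ x
        exact hZ g hg x) x
    exact h1.symm
  have h1 := hfull _ hC
  let b := finBasis ℚ_[ℓ] (ℚ_[ℓ] ⊗[ℚ] W)
  have h2 := h1 m (bcm (Ω := AlgebraicClosure ℚ_[ℓ]) b φ)
    (bcm_tate (Ω := AlgebraicClosure ℚ_[ℓ]) b ρ χ φ hφ) (fun l => 1 ⊗ₜ[ℚ_[ℓ]] v l)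
  have h3 : ∀ l, (Function.update (fun l => (1 : AlgebraicClosure ℚ_[ℓ]) ⊗ₜ[ℚ_[ℓ]] v l) l
      (X'.baseChange (AlgebraicClosure ℚ_[ℓ]) (1 ⊗ₜ[ℚ_[ℓ]] v l))) =
      fun i => (1 : AlgebraicClosure ℚ_[ℓ]) ⊗ₜ[ℚ_[ℓ]] Function.update v l (X' (v l)) i := by
    intro l
    funext i
    by_cases hi : i = l
    · subst hi
      rw [Function.update_self, Function.update_self, LinearMap.baseChange_tmul]
    · rw [Function.update_of_ne hi, Function.update_of_ne hi]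
  simp only [h3, bcm_one] at h2
  rw [← map_sum, FaithfulSMul.algebraMap_eq_zero_iff] at h2
  have h4 : ∀ l, φ (Function.update v l (X (v l))) =
      φ (Function.update v l (X' (v l))) + (μ / 2) * φ v := by
    intro l
    rw [hXe, MultilinearMap.map_update_add, MultilinearMap.map_update_smul,
      Function.update_eq_self, smul_eq_mul]
  simp only [h4]
  rw [Finset.sum_add_distrib, h2, zero_add, Finset.sum_const, Finset.card_univ, Fintype.card_prod,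
    Fintype.card_fin, Fintype.card_fin, nsmul_eq_mul]
  push_cast
  ring

end Pool.Agent.H86.T3
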